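import Pool.Agent.Q97.UM.Stm5

set_option autoImplicit false

/-!
# Project UM: windows of any length (job WND)
-/

namespace Pool.Agent.Q210.UM

open Filter Topology MeasureTheory Set
open Pool.Agent.Q97.UM

lemma gint {g : ℝ → ℝ} (hg : Measurable g) {M a b : ℝ} (hab : a ≤ b) (h0 : ∀ s, 0 ≤ g s)
    (hM : ∀ s, a ≤ s → s ≤ b → g s ≤ M) {V : ℝ → ℝ} (hV : Continuous V) (hV0 : ∀ s, 0 ≤ V s) :
    IntervalIntegrable (fun s => g s * V s) volume a b := by
  rw [intervalIntegrable_iff_integrableOn_Ioc_of_le hab]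
  have h1 : IntegrableOn (fun s => M * V s) (Ioc a b) :=
    ((continuous_const.mul hV).integrableOn_Icc).mono_set Ioc_subset_Icc_self
  refine Integrable.mono' h1 ((hg.mul hV.measurable).aestronglyMeasurable) ?_
  refine (ae_restrict_iff' measurableSet_Ioc).2 (Eventually.of_forall fun s hs => ?_)
  rw [Real.norm_of_nonneg (mul_nonneg (h0 s) (hV0 s))]
  exact mul_le_mul_of_nonneg_right (hM s hs.1.le hs.2) (hV0 s)

lemma V_cont (hD : S_DPM) (N : ℕ) (b : ℕ → ℂ) : Continuous fun t : ℝ => ‖dp N b t‖ ^ 2 :=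
  ((hD.2.2 N b 0).2.norm).pow 2

lemma N2_nonneg (N : ℕ) (b : ℕ → ℂ) : 0 ≤ N2 N b := by
  unfold N2
  exact Finset.sum_nonneg fun n _ => by positivity

/-- shifting a weight -/
lemma shift (hD : S_DPM) {T x M B : ℝ} (hT : 0 < T) (hx : |x| ≤ T / 2) {g : ℝ → ℝ} (hg : Measurable g)
    (h0 : ∀ s, 0 ≤ g s) (hM : ∀ s, T / 2 ≤ s → s ≤ 4 * T → g s ≤ M) (N : ℕ)
    (hB : ∀ T' : ℝ, (T' = T / 2 ∨ T' = T ∨ T' = 2 * T) → ∀ b : ℕ → ℂ,
      ∫ s in T'..(2 * T'), g s * ‖dp N b s‖ ^ 2 ≤ B * N2 N b) (b : ℕ → ℂ) :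
    ∫ t in T..(2 * T), g (t + x) * ‖dp N b t‖ ^ 2 ≤ 3 * B * N2 N b := by
  obtain ⟨hx1, hx2⟩ := abs_le.1 hx
  have e1 := intervalIntegral.integral_comp_add_right (a := T) (b := 2 * T)
    (fun s => g s * ‖dp N b (s - x)‖ ^ 2) x
  simp only [add_sub_cancel_right] at e1
  rw [e1]
  set b' : ℕ → ℂ := fun n => b n * (n : ℂ) ^ (x * Complex.I) with hb'
  have e2 : ∀ s : ℝ, dp N b (s - x) = dp N b' s := fun s => (hD.2.1 N b s x).1
  have e3 : N2 N b' = N2 N b := (hD.2.1 N b 0 x).2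
  simp_rw [e2]
  have hV := V_cont hD N b'
  have hV0 : ∀ s : ℝ, 0 ≤ ‖dp N b' s‖ ^ 2 := fun s => sq_nonneg _
  have i1 : IntervalIntegrable (fun s => g s * ‖dp N b' s‖ ^ 2) volume (T / 2) T :=
    gint hg (by linarith) h0 (fun s h1 h2 => hM s h1 (by linarith)) hV hV0
  have i2 : IntervalIntegrable (fun s => g s * ‖dp N b' s‖ ^ 2) volume T (2 * T) :=
    gint hg (by linarith) h0 (fun s h1 h2 => hM s (by linarith) (by linarith)) hV hV0
  have i3 : IntervalIntegrable (fun s => g s * ‖dp N b' s‖ ^ 2) volume (2 * T) (4 * T) :=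
    gint hg (by linarith) h0 (fun s h1 h2 => hM s (by linarith) (by linarith)) hV hV0
  have h1 : ∫ s in (T + x)..(2 * T + x), g s * ‖dp N b' s‖ ^ 2 ≤ ∫ s in (T / 2)..(4 * T), g s * ‖dp N b' s‖ ^ 2 := by
    refine intervalIntegral.integral_mono_interval (by linarith) (by linarith) (by linarith) ?_ ((i1.trans i2).trans i3)
    exact Eventually.of_forall fun s => mul_nonneg (h0 s) (hV0 s)
  have h2 : ∫ s in (T / 2)..(4 * T), g s * ‖dp N b' s‖ ^ 2 =
      (∫ s in (T / 2)..T, g s * ‖dp N b' s‖ ^ 2) + (∫ s in T..(2 * T), g s * ‖dp N b' s‖ ^ 2) +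
        ∫ s in (2 * T)..(4 * T), g s * ‖dp N b' s‖ ^ 2 := by
    rw [intervalIntegral.integral_add_adjacent_intervals i1 i2,
      intervalIntegral.integral_add_adjacent_intervals (i1.trans i2) i3]
  have h3 := hB (T / 2) (Or.inl rfl) b'
  have h4 := hB T (Or.inr (Or.inl rfl)) b'
  have h5 := hB (2 * T) (Or.inr (Or.inr rfl)) b'
  rw [show 2 * (T / 2) = T by ring] at h3
  rw [show 2 * (2 * T) = 4 * T by ring] at h5
  rw [e3] at h3 h4 h5
  linarith

/-- the covering of a window by short windows -/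
lemma cover {r w : ℝ} (hr : 0 < r) (hw : 0 ≤ w) {y : ℝ} (hy : |y| ≤ w) :
    ∃ j ∈ Finset.range (⌈w / r⌉₊ + 1), |y - (-w + r + 2 * r * j)| ≤ r := by
  obtain ⟨h1, h2⟩ := abs_le.1 hy
  have h3 : 0 ≤ (y + w) / (2 * r) := div_nonneg (by linarith) (by linarith)
  refine ⟨⌊(y + w) / (2 * r)⌋₊, ?_, ?_⟩
  · rw [Finset.mem_range, Nat.lt_succ_iff]
    have h4 : (⌊(y + w) / (2 * r)⌋₊ : ℝ) ≤ ⌈w / r⌉₊ := by
      calc (⌊(y + w) / (2 * r)⌋₊ : ℝ) ≤ (y + w) / (2 * r) := Nat.floor_le h3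
        _ ≤ w / r := by
            rw [div_le_div_iff₀ (by linarith) hr]
            nlinarith
        _ ≤ ⌈w / r⌉₊ := Nat.le_ceil _
    exact_mod_cast h4
  · have h5 := Nat.floor_le h3
    have h6 := Nat.lt_floor_add_one ((y + w) / (2 * r))
    rw [le_div_iff₀ (by linarith)] at h5
    rw [div_lt_iff₀ (by linarith)] at h6
    rw [abs_le]
    constructor <;> linarith

lemma off_bd {r w : ℝ} (hr : 0 < r) (hw : 0 ≤ w) {j : ℕ} (hj : j ∈ Finset.range (⌈w / r⌉₊ + 1)) :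
    |(-w + r + 2 * r * j : ℝ)| ≤ w + 3 * r := by
  rw [Finset.mem_range, Nat.lt_succ_iff] at hj
  have h1 : (j : ℝ) ≤ ⌈w / r⌉₊ := by exact_mod_cast hj
  have h2 : (⌈w / r⌉₊ : ℝ) < w / r + 1 := Nat.ceil_lt_add_one (by positivity)
  have h3 : (j : ℝ) * r ≤ w + r := by
    have h4 : (j : ℝ) * r ≤ (w / r + 1) * r := mul_le_mul_of_nonneg_right (by linarith) hr.le
    have h5 : (w / r + 1) * r = w + r := by field_simp
    linarith
  have h6 : (0 : ℝ) ≤ j * r := by positivity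
  rw [abs_le]
  constructor <;> nlinarith

lemma nz_eq (hZ : S_ZF2) (t r : ℝ) : nz t r = ∑ ρ ∈ (hZ.1 t r).toFinset, analyticOrderNatAt riemannZeta ρ := by
  unfold nz
  exact finsum_mem_eq_finite_toFinset_sum _ (hZ.1 t r)

lemma nz_mono (hZ : S_ZF2) {t r t' r' : ℝ} (h : Zw t r ⊆ Zw t' r') : nz t r ≤ nz t' r' := by
  rw [nz_eq hZ, nz_eq hZ]
  exact Finset.sum_le_sum_of_subset (Set.Finite.toFinset_subset_toFinset.2 h)

lemma Zw_sub {t r t' r' : ℝ} (h : |t - t'| + r ≤ r') : Zw t r ⊆ Zw t' r' := by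
  rintro ρ ⟨h0, h1, h2, h3⟩
  refine ⟨h0, h1, h2, ?_⟩
  calc |ρ.im - t'| = |(ρ.im - t) + (t - t')| := by congr 1; ring
    _ ≤ |ρ.im - t| + |t - t'| := abs_add_le _ _
    _ ≤ r' := by linarith

lemma nz_cover (hZ : S_ZF2) {t r w : ℝ} (hr : 0 < r) (hw : 0 ≤ w) :
    nz t w ≤ ∑ j ∈ Finset.range (⌈w / r⌉₊ + 1), nz (t + (-w + r + 2 * r * j)) r := by
  classical
  rw [nz_eq hZ]
  have h1 : ∀ ρ ∈ (hZ.1 t w).toFinset, analyticOrderNatAt riemannZeta ρ ≤
      ∑ j ∈ Finset.range (⌈w / r⌉₊ + 1), (if ρ ∈ Zw (t + (-w + r + 2 * r * j)) r then analyticOrderNatAt riemannZeta ρ else 0) := by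
    intro ρ hρ
    rw [Set.Finite.mem_toFinset] at hρ
    obtain ⟨h0, h1, h2, h3⟩ := hρ
    obtain ⟨j, hj, hj2⟩ := cover hr hw h3
    have h4 : ρ ∈ Zw (t + (-w + r + 2 * r * j)) r := by
      refine ⟨h0, h1, h2, ?_⟩
      rw [← sub_sub]
      exact hj2
    have h5 := Finset.single_le_sum (f := fun j : ℕ =>
      (if ρ ∈ Zw (t + (-w + r + 2 * r * j)) r then analyticOrderNatAt riemannZeta ρ else 0))
      (fun i _ => Nat.zero_le _) hj
    simp only [if_pos h4] at h5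
    exact h5
  refine (Finset.sum_le_sum h1).trans ?_
  rw [Finset.sum_comm]
  refine Finset.sum_le_sum fun j _ => ?_
  rw [nz_eq hZ, ← Finset.sum_filter]
  refine Finset.sum_le_sum_of_subset fun ρ hρ => ?_
  rw [Finset.mem_filter] at hρ
  rw [Set.Finite.mem_toFinset]
  exact hρ.2

/-- integrals over sets of `t ∈ [T, 2T]` -/
lemma set_int {T : ℝ} (hT : 0 ≤ T) {P : Set ℝ} (hP : MeasurableSet P) (V : ℝ → ℝ) :
    ∫ t in {t : ℝ | T ≤ t ∧ t ≤ 2 * T ∧ t ∈ P}, V t = ∫ t in T..(2 * T), P.indicator 1 t * V t := by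
  have e : {t : ℝ | T ≤ t ∧ t ≤ 2 * T ∧ t ∈ P} = Icc T (2 * T) ∩ P := by
    ext t
    constructor
    · rintro ⟨h1, h2, h3⟩
      exact ⟨⟨h1, h2⟩, h3⟩
    · rintro ⟨⟨h1, h2⟩, h3⟩
      exact ⟨h1, h2, h3⟩
  rw [e, ← setIntegral_indicator hP, intervalIntegral.integral_of_le (by linarith), ← integral_Icc_eq_integral_Ioc]
  refine setIntegral_congr_fun measurableSet_Icc fun t _ => ?_
  by_cases h : t ∈ P
  · simp [indicator_of_mem h]
  · simp [indicator_of_notMem h]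

/-- summing the shifted weights -/
lemma comb (hD : S_DPM) {T M B : ℝ} (hT : 0 < T) {g : ℝ → ℝ} (hg : Measurable g)
    (h0 : ∀ s, 0 ≤ g s) (hM : ∀ s, T / 2 ≤ s → s ≤ 4 * T → g s ≤ M) (N : ℕ)
    (hB : ∀ T' : ℝ, (T' = T / 2 ∨ T' = T ∨ T' = 2 * T) → ∀ b : ℕ → ℂ,
      ∫ s in T'..(2 * T'), g s * ‖dp N b s‖ ^ 2 ≤ B * N2 N b) (b : ℕ → ℂ) {n : ℕ} {x : ℕ → ℝ}
    (hx : ∀ j ∈ Finset.range n, |x j| ≤ T / 2) {G : ℝ → ℝ} (hG : Measurable G) (hG0 : ∀ s, 0 ≤ G s)
    (hle : ∀ t, T ≤ t → t ≤ 2 * T → G t ≤ ∑ j ∈ Finset.range n, g (t + x j)) :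
    ∫ t in T..(2 * T), G t * ‖dp N b t‖ ^ 2 ≤ n * (3 * B * N2 N b) := by
  have hV := V_cont hD N b
  have hV0 : ∀ s : ℝ, 0 ≤ ‖dp N b s‖ ^ 2 := fun s => sq_nonneg _
  have hsh : ∀ j ∈ Finset.range n, ∀ s, T ≤ s → s ≤ 2 * T → g (s + x j) ≤ M := by
    intro j hj s h1 h2
    obtain ⟨h3, h4⟩ := abs_le.1 (hx j hj)
    exact hM _ (by linarith) (by linarith)
  have i1 : ∀ j ∈ Finset.range n, IntervalIntegrable (fun t => g (t + x j) * ‖dp N b t‖ ^ 2) volume T (2 * T) := by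
    intro j hj
    exact gint (hg.comp (measurable_id.add_const _)) (by linarith) (fun s => h0 _) (hsh j hj) hV hV0
  have i2 : IntervalIntegrable (fun t => G t * ‖dp N b t‖ ^ 2) volume T (2 * T) := by
    refine gint hG (by linarith) hG0 (M := n * M) (fun s h1 h2 => (hle s h1 h2).trans ?_) hV hV0
    calc ∑ j ∈ Finset.range n, g (s + x j) ≤ ∑ j ∈ Finset.range n, M :=
          Finset.sum_le_sum fun j hj => hsh j hj s h1 h2
      _ = n * M := by simp
  have e1 : ∫ t in T..(2 * T), ∑ j ∈ Finset.range n, g (t + x j) * ‖dp N b t‖ ^ 2 =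
      ∑ j ∈ Finset.range n, ∫ t in T..(2 * T), g (t + x j) * ‖dp N b t‖ ^ 2 :=
    intervalIntegral.integral_finsetSum i1
  have i3 : IntervalIntegrable (fun t => ∑ j ∈ Finset.range n, g (t + x j) * ‖dp N b t‖ ^ 2) volume T (2 * T) := by
    have := IntervalIntegrable.sum (Finset.range n) i1
    refine this.congr fun s _ => ?_
    simp [Finset.sum_apply]
  calc ∫ t in T..(2 * T), G t * ‖dp N b t‖ ^ 2
      ≤ ∫ t in T..(2 * T), ∑ j ∈ Finset.range n, g (t + x j) * ‖dp N b t‖ ^ 2 := by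
        refine intervalIntegral.integral_mono_on (by linarith) i2 i3 fun t ht => ?_
        rw [← Finset.sum_mul]
        exact mul_le_mul_of_nonneg_right (hle t ht.1 ht.2) (hV0 t)
    _ = ∑ j ∈ Finset.range n, ∫ t in T..(2 * T), g (t + x j) * ‖dp N b t‖ ^ 2 := e1
    _ ≤ ∑ j ∈ Finset.range n, 3 * B * N2 N b :=
        Finset.sum_le_sum fun j hj => shift hD hT (hx j hj) hg h0 hM N hB b
    _ = n * (3 * B * N2 N b) := by simp

/-- the layer cake formula for counts -/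
lemma cake (hZ : S_ZF2) {r T' : ℝ} (hT' : 0 < T') {C c : ℝ} (hC : 0 ≤ C) (hc : 0 < c) {V : ℝ → ℝ} (hV : Continuous V)
    (hV0 : ∀ s, 0 ≤ V s) {Nb : ℝ} (hNb : 0 ≤ Nb) (K₀ : ℕ) (hK₀ : ∀ s, T' ≤ s → s ≤ 2 * T' → nz s r ≤ K₀)
    (h : ∀ K : ℕ, ∫ t in {t : ℝ | T' ≤ t ∧ t ≤ 2 * T' ∧ K ≤ nz t r}, V t ≤ C * Real.exp (-(c * K)) * T' * Nb) :
    ∫ t in T'..(2 * T'), (nz t r : ℝ) * V t ≤ C / c * T' * Nb := by
  classical
  have hm : ∀ K : ℕ, MeasurableSet {t : ℝ | K ≤ nz t r} := hZ.2.1 r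
  have e1 : ∀ t : ℝ, T' ≤ t → t ≤ 2 * T' → (nz t r : ℝ) = ∑ K ∈ Finset.range K₀, ({t : ℝ | K + 1 ≤ nz t r}).indicator 1 t := by
    intro t h1 h2
    have h3 := hK₀ t h1 h2
    have : ∀ K ∈ Finset.range K₀, ({t : ℝ | K + 1 ≤ nz t r}).indicator (1 : ℝ → ℝ) t = if K < nz t r then 1 else 0 := by
      intro K _
      by_cases hK : K + 1 ≤ nz t r
      · rw [indicator_of_mem (by exact hK), if_pos (by omega)]
        rfl
      · rw [indicator_of_notMem (by exact hK), if_neg (by omega)]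
    rw [Finset.sum_congr rfl this, Finset.sum_boole]
    congr 1
    have h4 : (Finset.range K₀).filter (fun K => K < nz t r) = Finset.range (nz t r) := by
      ext K
      simp only [Finset.mem_filter, Finset.mem_range]
      omega
    rw [h4, Finset.card_range]
  have hi : ∀ K ∈ Finset.range K₀, IntervalIntegrable
      (fun t => ({t : ℝ | K + 1 ≤ nz t r}).indicator (1 : ℝ → ℝ) t * V t) volume T' (2 * T') := by
    intro K _
    refine gint (M := 1) (measurable_one.indicator (hm (K + 1))) (by linarith) (fun s => indicator_nonneg (fun _ _ => zero_le_one) s)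
      (fun s _ _ => indicator_le_self' (fun _ _ => zero_le_one) s) hV hV0
  have e2 : ∫ t in T'..(2 * T'), (nz t r : ℝ) * V t =
      ∑ K ∈ Finset.range K₀, ∫ t in T'..(2 * T'), ({t : ℝ | K + 1 ≤ nz t r}).indicator (1 : ℝ → ℝ) t * V t := by
    rw [← intervalIntegral.integral_finsetSum hi]
    refine intervalIntegral.integral_congr fun t ht => ?_
    rw [uIcc_of_le (by linarith)] at ht
    change (nz t r : ℝ) * V t = ∑ K ∈ Finset.range K₀, ({t : ℝ | K + 1 ≤ nz t r}).indicator (1 : ℝ → ℝ) t * V t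
    rw [e1 t ht.1 ht.2, Finset.sum_mul]
  have h5 : ∀ K ∈ Finset.range K₀, ∫ t in T'..(2 * T'), ({t : ℝ | K + 1 ≤ nz t r}).indicator (1 : ℝ → ℝ) t * V t ≤
      C * T' * Nb * (Real.exp (-c) * Real.exp (-c) ^ K) := by
    intro K _
    have := h (K + 1)
    rw [← set_int hT'.le (hm (K + 1)) V]
    refine this.trans (le_of_eq ?_)
    rw [← pow_succ', ← Real.exp_nat_mul]
    push_cast
    rw [show ((K : ℝ) + 1) * -c = -(c * ((K : ℝ) + 1)) by ring]
    ring
  rw [e2]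
  refine (Finset.sum_le_sum h5).trans ?_
  rw [← Finset.mul_sum, ← Finset.mul_sum]
  have h6 : Real.exp (-c) * ∑ K ∈ Finset.range K₀, Real.exp (-c) ^ K ≤ 1 / c := by
    have h7 : Real.exp (-c) < 1 := by
      rw [Real.exp_lt_one_iff]
      linarith
    have h8 : 0 < Real.exp (-c) := Real.exp_pos _
    have h9 : ∑ K ∈ Finset.range K₀, Real.exp (-c) ^ K ≤ (1 - Real.exp (-c))⁻¹ := by
      rw [← tsum_geometric_of_lt_one h8.le h7]
      exact (summable_geometric_of_lt_one h8.le h7).sum_le_tsum _ (fun i _ => by positivity)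
    calc Real.exp (-c) * ∑ K ∈ Finset.range K₀, Real.exp (-c) ^ K ≤ Real.exp (-c) * (1 - Real.exp (-c))⁻¹ :=
          mul_le_mul_of_nonneg_left h9 h8.le
      _ ≤ 1 / c := by
          rw [← div_eq_mul_inv, div_le_div_iff₀ (by linarith) hc]
          have h10 : c + 1 ≤ Real.exp c := Real.add_one_le_exp c
          have h11 : Real.exp (-c) * Real.exp c = 1 := by
            rw [← Real.exp_add]
            simp
          nlinarith
  calc C * T' * Nb * (Real.exp (-c) * ∑ K ∈ Finset.range K₀, Real.exp (-c) ^ K) ≤ C * T' * Nb * (1 / c) :=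
        mul_le_mul_of_nonneg_left h6 (by positivity)
    _ = C / c * T' * Nb := by ring

theorem t_WND : S_WND := by
  intro θ c C hθ0 hθ1 hc hC hTB _ hD hZ
  unfold TailB at hTB
  refine ⟨24 * C + 24 * (C / c), by positivity, ?_⟩
  have hT1 := (tendsto_id.atTop_div_const (two_pos : (0 : ℝ) < 2)).eventually hTB
  have hT2 := (tendsto_id.const_mul_atTop (two_pos : (0 : ℝ) < 2)).eventually hTB
  filter_upwards [hT1, hTB, hT2, eventually_ge_atTop (Real.exp 4)] with T h1 h2 h3 hT R hR hRT N hN b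
  simp only [id] at h1 h3
  have hT4 : (5 : ℝ) ≤ T := by
    have := Real.add_one_le_exp (4 : ℝ)
    linarith
  have hT0 : 0 < T := by linarith
  have hL : 4 ≤ Real.log T := by
    rw [Real.le_log_iff_exp_le hT0]
    exact hT
  have hlog2 : Real.log 2 ≤ 1 := by
    have := Real.log_two_lt_d9
    linarith
  have hlog2p : 0 < Real.log 2 := Real.log_pos one_lt_two
  have el1 : Real.log (T / 2) = Real.log T - Real.log 2 := Real.log_div hT0.ne' two_ne_zero
  have el2 : Real.log (2 * T) = Real.log 2 + Real.log T := Real.log_mul two_ne_zero hT0.ne'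
  have el3 : Real.log (4 * T) = 2 * Real.log 2 + Real.log T := by
    rw [Real.log_mul four_ne_zero hT0.ne', show (4 : ℝ) = 2 ^ 2 by norm_num, Real.log_pow]
    push_cast
    ring
  set r : ℝ := 1 / Real.log (4 * T) with hr
  set w : ℝ := R / Real.log T with hw
  have hL4 : 4 ≤ Real.log (4 * T) := by linarith
  have hr0 : 0 < r := by positivity
  have hw0 : 0 ≤ w := by positivity
  have hrq : r ≤ 1 / 4 := by
    rw [hr]
    exact one_div_le_one_div_of_le (by norm_num) hL4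
  have hwT : w ≤ T / 4 := by
    rw [hw]
    calc R / Real.log T ≤ T / Real.log T := by gcongr
      _ ≤ T / 4 := by gcongr
  -- the three scales
  have key : ∀ T' : ℝ, (T' = T / 2 ∨ T' = T ∨ T' = 2 * T) → 0 < T' ∧ T' ≤ 2 * T ∧ T / 2 ≤ T' ∧ Real.log T / 2 ≤ Real.log T' ∧
      Real.log T' ≤ Real.log (4 * T) ∧ (N : ℝ) ≤ T' ^ θ ∧ ∀ b : ℕ → ℂ,
      (∀ A : ℝ, 0 ≤ A → ∫ t in {t : ℝ | T' ≤ t ∧ t ≤ 2 * T' ∧ ∃ ρ ∈ Zw t (1 / Real.log T'), A / Real.log T' ≤ |ρ.re - 1 / 2|},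
        ‖dp N b t‖ ^ 2 ≤ C * Real.exp (-(c * A)) * T' * N2 N b) ∧
      (∀ K : ℕ, ∫ t in {t : ℝ | T' ≤ t ∧ t ≤ 2 * T' ∧ K ≤ nz t (1 / Real.log T')}, ‖dp N b t‖ ^ 2 ≤
        C * Real.exp (-(c * K)) * T' * N2 N b) := by
    intro T' hT'
    have k1 : 0 < T' ∧ T' ≤ 2 * T ∧ T / 2 ≤ T' ∧ Real.log T / 2 ≤ Real.log T' ∧ Real.log T' ≤ Real.log (4 * T) := by
      rcases hT' with h | h | h
      · rw [h, el1, el3]
        exact ⟨by linarith, by linarith, by linarith, by linarith, by linarith⟩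
      · rw [h, el3]
        exact ⟨by linarith, by linarith, by linarith, by linarith, by linarith⟩
      · rw [h, el2, el3]
        exact ⟨by linarith, by linarith, by linarith, by linarith, by linarith⟩
    obtain ⟨k2, k3, k4, k5, k6⟩ := k1
    have k7 : (N : ℝ) ≤ T' ^ θ := by
      refine hN.trans ?_
      rw [Real.rpow_def_of_pos hT0, Real.rpow_def_of_pos k2]
      refine Real.exp_le_exp.2 ?_
      nlinarith
    refine ⟨k2, k3, k4, k5, k6, k7, ?_⟩
    rcases hT' with h | h | h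
    · rw [h] at k7 ⊢
      exact h1 N k7
    · rw [h] at k7 ⊢
      exact h2 N k7
    · rw [h] at k7 ⊢
      exact h3 N k7
  have hn : ((⌈w / r⌉₊ + 1 : ℕ) : ℝ) ≤ 4 * R := by
    have h5 : (⌈w / r⌉₊ : ℝ) < w / r + 1 := Nat.ceil_lt_add_one (by positivity)
    have h6 : w / r ≤ 2 * R := by
      rw [hw, hr, div_div_eq_mul_div, div_one, div_mul_eq_mul_div, div_le_iff₀ (by linarith), el3]
      nlinarith
    push_cast
    linarith
  have hxj : ∀ j ∈ Finset.range (⌈w / r⌉₊ + 1), |(-w + r + 2 * r * j : ℝ)| ≤ T / 2 := by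
    intro j hj
    have := off_bd hr0 hw0 hj
    linarith
  have hV : ∀ b : ℕ → ℂ, Continuous fun t : ℝ => ‖dp N b t‖ ^ 2 := fun b => V_cont hD N b
  have hNb : ∀ b : ℕ → ℂ, 0 ≤ N2 N b := fun b => N2_nonneg N b
  have hrT : ∀ T' : ℝ, (T' = T / 2 ∨ T' = T ∨ T' = 2 * T) → r ≤ 1 / Real.log T' := by
    intro T' hT'
    obtain ⟨k2, k3, k4, k5, k6, k7, k8⟩ := key T' hT'
    exact one_div_le_one_div_of_le (by linarith) k6
  have fin : ∀ {X D : ℝ}, 0 ≤ D → X ≤ ((⌈w / r⌉₊ + 1 : ℕ) : ℝ) * (3 * (2 * D * T) * N2 N b) → X ≤ 24 * D * R * T * N2 N b := by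
    intro X D hD' hX
    refine hX.trans ?_
    calc ((⌈w / r⌉₊ + 1 : ℕ) : ℝ) * (3 * (2 * D * T) * N2 N b) ≤ (4 * R) * (3 * (2 * D * T) * N2 N b) :=
          mul_le_mul_of_nonneg_right hn (by have := hNb b; positivity)
      _ = 24 * D * R * T * N2 N b := by ring
  constructor
  · intro A hA
    set α : ℝ := A / Real.log T with hα
    set P : Set ℝ := {t : ℝ | ∃ ρ ∈ Zw t w, α ≤ |ρ.re - 1 / 2|} with hP
    set Q : Set ℝ := {t : ℝ | ∃ ρ ∈ Zw t r, α ≤ |ρ.re - 1 / 2|} with hQ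
    have mP : MeasurableSet P := hZ.2.2 w α
    have mQ : MeasurableSet Q := hZ.2.2 r α
    have e0 : ∫ t in {t : ℝ | T ≤ t ∧ t ≤ 2 * T ∧ ∃ ρ ∈ Zw t w, α ≤ |ρ.re - 1 / 2|}, ‖dp N b t‖ ^ 2 =
        ∫ t in T..(2 * T), P.indicator 1 t * ‖dp N b t‖ ^ 2 := set_int hT0.le mP _
    rw [e0]
    have h5 : ∀ T' : ℝ, (T' = T / 2 ∨ T' = T ∨ T' = 2 * T) → ∀ b : ℕ → ℂ,
        ∫ s in T'..(2 * T'), Q.indicator 1 s * ‖dp N b s‖ ^ 2 ≤ 2 * (C * Real.exp (-(c / 2 * A))) * T * N2 N b := by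
      intro T' hT' b
      obtain ⟨k2, k3, k4, k5, k6, k7, k8⟩ := key T' hT'
      have hlT : 0 < Real.log T' := by linarith
      have h6 := (k8 b).1 (A * Real.log T' / Real.log T) (by positivity)
      rw [← set_int k2.le mQ]
      have h7 : {t : ℝ | T' ≤ t ∧ t ≤ 2 * T' ∧ t ∈ Q} ⊆ {t : ℝ | T' ≤ t ∧ t ≤ 2 * T' ∧
          ∃ ρ ∈ Zw t (1 / Real.log T'), A * Real.log T' / Real.log T / Real.log T' ≤ |ρ.re - 1 / 2|} := by
        rintro t ⟨t1, t2, ρ, t3, t4⟩
        refine ⟨t1, t2, ρ, Zw_sub (by simpa using hrT T' hT') t3, ?_⟩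
        have : A * Real.log T' / Real.log T / Real.log T' = α := by
          rw [hα]
          field_simp
        rw [this]
        exact t4
      have mS : ∀ S : Set ℝ, S ⊆ Icc T' (2 * T') → IntegrableOn (fun t => ‖dp N b t‖ ^ 2) S :=
        fun S hS => ((hV b).integrableOn_Icc).mono_set hS
      have h8 : ∫ t in {t : ℝ | T' ≤ t ∧ t ≤ 2 * T' ∧ t ∈ Q}, ‖dp N b t‖ ^ 2 ≤
          ∫ t in {t : ℝ | T' ≤ t ∧ t ≤ 2 * T' ∧ ∃ ρ ∈ Zw t (1 / Real.log T'),
            A * Real.log T' / Real.log T / Real.log T' ≤ |ρ.re - 1 / 2|}, ‖dp N b t‖ ^ 2 :=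
        setIntegral_mono_set (mS _ (fun t ht => ⟨ht.1, ht.2.1⟩)) (Eventually.of_forall fun t => sq_nonneg _)
          (LE.le.eventuallyLE h7)
      refine h8.trans (h6.trans ?_)
      have h9 : Real.exp (-(c * (A * Real.log T' / Real.log T))) ≤ Real.exp (-(c / 2 * A)) := by
        refine Real.exp_le_exp.2 ?_
        have h10 : A / 2 ≤ A * Real.log T' / Real.log T := by
          rw [le_div_iff₀ (by linarith)]
          nlinarith
        nlinarith
      calc C * Real.exp (-(c * (A * Real.log T' / Real.log T))) * T' * N2 N b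
          ≤ C * Real.exp (-(c / 2 * A)) * (2 * T) * N2 N b := by
            have := hNb b
            gcongr
        _ = 2 * (C * Real.exp (-(c / 2 * A))) * T * N2 N b := by ring
    have h11 : ∀ t, T ≤ t → t ≤ 2 * T → P.indicator (1 : ℝ → ℝ) t ≤
        ∑ j ∈ Finset.range (⌈w / r⌉₊ + 1), Q.indicator (1 : ℝ → ℝ) (t + (-w + r + 2 * r * j)) := by
      intro t _ _
      by_cases ht : t ∈ P
      · obtain ⟨ρ, ⟨z0, z1, z2, z3⟩, hρ2⟩ := ht
        obtain ⟨j, hj, hj2⟩ := cover hr0 hw0 z3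
        have h12 : t + (-w + r + 2 * r * j) ∈ Q := by
          refine ⟨ρ, ⟨z0, z1, z2, ?_⟩, hρ2⟩
          rw [← sub_sub]
          exact hj2
        calc P.indicator (1 : ℝ → ℝ) t ≤ 1 := indicator_le_self' (fun _ _ => zero_le_one) t
          _ = Q.indicator (1 : ℝ → ℝ) (t + (-w + r + 2 * r * j)) := by rw [indicator_of_mem h12]; rfl
          _ ≤ _ := Finset.single_le_sum (f := fun j : ℕ => Q.indicator (1 : ℝ → ℝ) (t + (-w + r + 2 * r * j)))
              (fun i _ => indicator_nonneg (fun _ _ => zero_le_one) _) hj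
      · rw [indicator_of_notMem ht]
        exact Finset.sum_nonneg fun j _ => indicator_nonneg (fun _ _ => zero_le_one) _
    have h13 := comb hD hT0 (measurable_one.indicator mQ) (fun s => indicator_nonneg (fun _ _ => zero_le_one) s)
      (M := 1) (fun s _ _ => indicator_le_self' (fun _ _ => zero_le_one) s) N h5 b hxj (measurable_one.indicator mP)
      (fun s => indicator_nonneg (fun _ _ => zero_le_one) s) h11
    have h14 := fin (by positivity) h13
    refine h14.trans ?_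
    have := hNb b
    have h15 : 24 * (C * Real.exp (-(c / 2 * A))) * R * T * N2 N b ≤
        (24 * C + 24 * (C / c)) * R * Real.exp (-(c / 2 * A)) * T * N2 N b := by
      have h16 : 24 * (C * Real.exp (-(c / 2 * A))) * R * T * N2 N b = 24 * C * R * Real.exp (-(c / 2 * A)) * T * N2 N b := by ring
      rw [h16]
      gcongr
      have : 0 ≤ 24 * (C / c) := by positivity
      linarith
    exact h15
  · have mn : ∀ r : ℝ, Measurable (fun t => (nz t r : ℝ)) := by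
      intro r
      refine measurable_from_nat.comp (measurable_of_Ici fun k => ?_)
      exact hZ.2.1 r k
    have h5 : ∀ T' : ℝ, (T' = T / 2 ∨ T' = T ∨ T' = 2 * T) → ∀ b : ℕ → ℂ,
        ∫ s in T'..(2 * T'), (nz s r : ℝ) * ‖dp N b s‖ ^ 2 ≤ 2 * (C / c) * T * N2 N b := by
      intro T' hT' b
      obtain ⟨k2, k3, k4, k5, k6, k7, k8⟩ := key T' hT'
      have h6 := cake hZ (r := r) k2 (C := C) (c := c) hC hc (hV b) (fun s => sq_nonneg _) (hNb b) (nz 0 (4 * T + r))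
        (fun s s1 s2 => nz_mono hZ (Zw_sub (by rw [sub_zero, abs_of_nonneg (by linarith)]; linarith))) ?_
      · refine h6.trans ?_
        have := hNb b
        calc C / c * T' * N2 N b ≤ C / c * (2 * T) * N2 N b := by gcongr
          _ = 2 * (C / c) * T * N2 N b := by ring
      · intro K
        refine le_trans ?_ ((k8 b).2 K)
        have h7 : {t : ℝ | T' ≤ t ∧ t ≤ 2 * T' ∧ K ≤ nz t r} ⊆ {t : ℝ | T' ≤ t ∧ t ≤ 2 * T' ∧ K ≤ nz t (1 / Real.log T')} := by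
          rintro t ⟨t1, t2, t3⟩
          exact ⟨t1, t2, t3.trans (nz_mono hZ (Zw_sub (by simpa using hrT T' hT')))⟩
        exact setIntegral_mono_set (((hV b).integrableOn_Icc).mono_set (fun t ht => ⟨ht.1, ht.2.1⟩))
          (Eventually.of_forall fun t => sq_nonneg _) (LE.le.eventuallyLE h7)
    have h11 : ∀ t, T ≤ t → t ≤ 2 * T → (nz t w : ℝ) ≤
        ∑ j ∈ Finset.range (⌈w / r⌉₊ + 1), (nz (t + (-w + r + 2 * r * j)) r : ℝ) := by
      intro t _ _
      exact_mod_cast nz_cover hZ (t := t) hr0 hw0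
    have h13 := comb hD hT0 (mn r) (fun s => Nat.cast_nonneg _) (M := (nz 0 (4 * T + r) : ℝ))
      (fun s s1 s2 => by
        have := nz_mono hZ (Zw_sub (t := s) (r := r) (t' := 0) (r' := 4 * T + r)
          (by rw [sub_zero, abs_of_nonneg (by linarith)]; linarith))
        exact_mod_cast this) N h5 b hxj (mn w) (fun s => Nat.cast_nonneg _) h11
    have h14 := fin (by positivity) h13
    refine h14.trans ?_
    have := hNb b
    gcongr
    linarith

end Pool.Agent.Q210.UM
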