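import Mathlib
import Pool.Agent.Q97.UM.Stm

/-!
# Project UM, job GEV: a window with a rapidly decaying Fourier transform
-/

set_option autoImplicit false

namespace Pool.Agent.Q210.UM

open Filter Topology MeasureTheory Complex Pool.Agent.Q97.UM
open scoped FourierTransform ContDiff

/-- A smooth window and its Fourier transform. -/
theorem base : ∃ (g Q : ℝ → ℝ), Continuous g ∧ (∀ u, 0 ≤ g u ∧ g u ≤ 1) ∧
    (∀ u, |u| ≤ 1 / 2 → g u = 1) ∧ (∀ u, 3 / 4 ≤ |u| → g u = 0) ∧ Continuous Q ∧ Integrable Q ∧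
    (∃ K, ∀ y, |Q y| ≤ K) ∧
    ∀ u, (g u : ℂ) = ∫ y : ℝ, ((Q y : ℝ) : ℂ) * cexp (I * (u * y : ℝ)) := by
  let f : ContDiffBump (0 : ℝ) := ⟨1 / 2, 3 / 4, by norm_num, by norm_num⟩
  have hc : HasCompactSupport (fun x : ℝ => ((f x : ℝ) : ℂ)) :=
    f.hasCompactSupport.comp_left (g := fun x : ℝ => (x : ℂ)) Complex.ofReal_zero
  have hs : ContDiff ℝ ∞ (fun x : ℝ => ((f x : ℝ) : ℂ)) :=
    Complex.ofRealCLM.contDiff.comp f.contDiff
  let F : SchwartzMap ℝ ℂ := hc.toSchwartzMap hs
  have hF : ∀ x, F x = ((f x : ℝ) : ℂ) := fun x => rfl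
  let G : SchwartzMap ℝ ℂ := 𝓕 F
  have hG : ∀ w : ℝ, G w = ∫ v : ℝ, cexp ((↑(-2 * Real.pi * v * w) : ℂ) * I) • ((f v : ℝ) : ℂ) := by
    intro w
    exact Real.fourier_real_eq_integral_exp_smul _ w
  have him : ∀ w, (G w).im = 0 := by
    intro w
    rw [← Complex.conj_eq_iff_im, hG w, ← integral_conj, ← integral_neg_eq_self]
    congr 1
    funext v
    rw [smul_eq_mul, smul_eq_mul, map_mul, Complex.conj_ofReal, ← Complex.exp_conj, map_mul,
      Complex.conj_ofReal, Complex.conj_I, f.neg]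
    congr 2
    push_cast
    ring
  have hinv : ∀ u : ℝ, ((f u : ℝ) : ℂ) = ∫ w : ℝ, cexp ((↑(2 * Real.pi * (w * u)) : ℂ) * I) • G w := by
    intro u
    have h1 : 𝓕⁻ (𝓕 (F : ℝ → ℂ)) = F := by
      apply Continuous.fourierInv_fourier_eq F.continuous F.integrable
      exact G.integrable
    have h2 := congrFun h1 u
    rw [hF u] at h2
    rw [← h2, Real.fourierInv_eq']
    congr 1
    funext w
    congr 3
    simp [mul_comm]
  have hpi : 0 < 2 * Real.pi := by positivity
  refine ⟨fun u => f u, fun y => 1 / (2 * Real.pi) * (G (y / (2 * Real.pi))).re, f.continuous,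
    fun u => ⟨f.nonneg, f.le_one⟩, fun u hu => ?_, fun u hu => ?_, ?_, ?_, ?_, fun u => ?_⟩
  · apply f.one_of_mem_closedBall
    rw [mem_closedBall_zero_iff, Real.norm_eq_abs]
    exact hu
  · apply f.zero_of_le_dist
    rw [dist_zero_right, Real.norm_eq_abs]
    exact hu
  · have h1 : Continuous G := G.continuous
    exact continuous_const.mul (Complex.continuous_re.comp (h1.comp (by fun_prop)))
  · have h1 : Integrable (fun w => (G w).re) := G.integrable.re
    have h2 := h1.comp_div (R := 2 * Real.pi) hpi.ne'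
    exact h2.const_mul _
  · obtain ⟨K, hK⟩ : ∃ K : ℝ, ∀ w, ‖G w‖ ≤ K :=
      ⟨_, fun w => SchwartzMap.norm_le_seminorm ℝ G w⟩
    refine ⟨1 / (2 * Real.pi) * K, fun y => ?_⟩
    rw [abs_mul, abs_of_pos (by positivity)]
    apply mul_le_mul_of_nonneg_left _ (by positivity)
    exact (Complex.abs_re_le_norm _).trans (hK _)
  · rw [hinv u]
    have h1 := Measure.integral_comp_mul_left
      (fun y : ℝ => (((1 / (2 * Real.pi) * (G (y / (2 * Real.pi))).re : ℝ)) : ℂ) *
        cexp (I * (u * y : ℝ))) (2 * Real.pi)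
    rw [abs_of_pos (by positivity)] at h1
    have h2 : ∫ y : ℝ, (((1 / (2 * Real.pi) * (G (y / (2 * Real.pi))).re : ℝ)) : ℂ) *
        cexp (I * (u * y : ℝ)) = (2 * Real.pi : ℝ) • ∫ x : ℝ,
          (((1 / (2 * Real.pi) * (G (2 * Real.pi * x / (2 * Real.pi))).re : ℝ)) : ℂ) *
        cexp (I * (u * (2 * Real.pi * x) : ℝ)) := by
      rw [h1, smul_smul, mul_inv_cancel₀ hpi.ne', one_smul]
    rw [h2, ← integral_smul]
    congr 1
    funext w
    have h3 : 2 * Real.pi * w / (2 * Real.pi) = w := by field_simp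
    rw [h3]
    have h4 : G w = ((G w).re : ℂ) := by
      apply Complex.ext
      · simp
      · rw [him w, Complex.ofReal_im]
    rw [smul_eq_mul]
    conv_lhs => rw [h4]
    rw [Complex.real_smul]
    have h5 : (↑(2 * Real.pi * (w * u)) : ℂ) * I = I * (u * (2 * Real.pi * w) : ℝ) := by
      push_cast
      ring
    rw [h5]
    push_cast
    have h6 : (Real.pi : ℂ) ≠ 0 := by exact_mod_cast Real.pi_ne_zero
    field_simp

/-- The average of an exponential. -/
theorem sinc_int (a y : ℝ) :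
    ∫ s in (-a)..a, cexp (I * (s * y : ℝ)) = 2 * a * (Real.sinc (a * y) : ℝ) := by
  rcases eq_or_ne y 0 with rfl | hy
  · simp
    ring
  · have h1 := integral_exp_mul_I_eq_sinc (a * y)
    have h2 := intervalIntegral.integral_comp_mul_right (a := -a) (b := a)
      (fun t : ℝ => cexp (t * I)) hy
    have h3 : (fun s : ℝ => cexp (I * (s * y : ℝ))) = fun s : ℝ => cexp (((s * y : ℝ) : ℂ) * I) := by
      funext s
      rw [mul_comm]
    rw [h3, h2, neg_mul, h1, Complex.real_smul]
    have hy' : (y : ℂ) ≠ 0 := by exact_mod_cast hy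
    push_cast
    field_simp

theorem norm_exp (x : ℝ) : ‖cexp (I * (x : ℝ))‖ = 1 := by
  rw [mul_comm]
  exact Complex.norm_exp_ofReal_mul_I x

/-- One averaging step. -/
theorem step {g Q φ : ℝ → ℝ} (hQ : Continuous Q) (hQi : Integrable Q)
    (hφc : Continuous φ) (hφ : ∀ y, |φ y| ≤ 1)
    (h : ∀ u, (g u : ℂ) = ∫ y : ℝ, ((Q y * φ y : ℝ) : ℂ) * cexp (I * (u * y : ℝ))) (a : ℝ)
    (ha : 0 < a) (u : ℝ) :
    (((1 / (2 * a)) * ∫ s in (-a)..a, g (u + s) : ℝ) : ℂ) =
      ∫ y : ℝ, ((Q y * (φ y * Real.sinc (a * y)) : ℝ) : ℂ) * cexp (I * (u * y : ℝ)) := by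
  have haa : -a ≤ a := by linarith
  have h1 : ∀ y : ℝ, ((Q y * (φ y * Real.sinc (a * y)) : ℝ) : ℂ) * cexp (I * (u * y : ℝ)) =
      (1 / (2 * a) : ℝ) * ∫ s in Set.Ioc (-a) a,
        ((Q y * φ y : ℝ) : ℂ) * cexp (I * ((u + s) * y : ℝ)) := by
    intro y
    have h2 : ∀ s : ℝ, ((Q y * φ y : ℝ) : ℂ) * cexp (I * ((u + s) * y : ℝ)) =
        (((Q y * φ y : ℝ) : ℂ) * cexp (I * (u * y : ℝ))) * cexp (I * (s * y : ℝ)) := by
      intro s
      rw [mul_assoc, ← Complex.exp_add]
      congr 2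
      push_cast
      ring
    simp only [h2]
    rw [integral_const_mul, ← intervalIntegral.integral_of_le haa, sinc_int]
    have ha' : (a : ℂ) ≠ 0 := by exact_mod_cast ha.ne'
    push_cast
    field_simp
  have hprod : Integrable (Function.uncurry fun (y s : ℝ) =>
      ((Q y * φ y : ℝ) : ℂ) * cexp (I * ((u + s) * y : ℝ)))
      (volume.prod (volume.restrict (Set.Ioc (-a) a))) := by
    have h3 : Integrable (fun z : ℝ × ℝ => Q z.1 * (1 : ℝ))
        (volume.prod (volume.restrict (Set.Ioc (-a) a))) :=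
      Integrable.mul_prod (f := Q) (g := fun _ => (1 : ℝ)) hQi (integrable_const 1)
    refine h3.mono ?_ ?_
    · apply Continuous.aestronglyMeasurable
      simp only [Function.uncurry_def]
      fun_prop
    · refine Eventually.of_forall fun z => ?_
      simp only [Function.uncurry_def]
      rw [norm_mul, norm_exp, mul_one, Complex.norm_real, Real.norm_eq_abs, Real.norm_eq_abs,
        abs_mul, mul_one]
      exact mul_le_of_le_one_right (abs_nonneg _) (hφ _)
  simp only [h1]
  rw [integral_const_mul, integral_integral_swap hprod]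
  push_cast
  congr 1
  rw [← intervalIntegral.integral_ofReal, intervalIntegral.integral_of_le haa]
  congr 1
  funext s
  rw [h (u + s)]
  push_cast
  rfl

/-! ## The lengths -/

/-- The lengths of the averages. -/
noncomputable def aj (j : ℕ) : ℝ := 1 / 8 * (1 / √((j : ℝ) + 1) - 1 / √((j : ℝ) + 2))

/-- Their sums. -/
noncomputable def sj (J : ℕ) : ℝ := ∑ j ∈ Finset.range J, aj j

theorem aj_lower (j : ℕ) : 1 / (16 * √((j : ℝ) + 2) ^ 3) ≤ aj j := by
  unfold aj
  set s := √((j : ℝ) + 1) with hs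
  set r := √((j : ℝ) + 2) with hr
  have hj : (0 : ℝ) ≤ j := Nat.cast_nonneg j
  have hs0 : 0 < s := Real.sqrt_pos.2 (by linarith)
  have hr0 : 0 < r := Real.sqrt_pos.2 (by linarith)
  have hs2 : s ^ 2 = j + 1 := Real.sq_sqrt (by linarith)
  have hr2 : r ^ 2 = j + 2 := Real.sq_sqrt (by linarith)
  have hsr : s ≤ r := Real.sqrt_le_sqrt (by linarith)
  have h1 : (r - s) * (r + s) = 1 := by nlinarith
  have h2 : 1 / s - 1 / r = (r - s) / (s * r) := by
    field_simp
  have h3 : r - s = 1 / (r + s) := by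
    rw [eq_div_iff (by linarith)]
    exact h1
  have h6 : 1 / 8 * (1 / (r + s) / (s * r)) = 1 / (8 * ((r + s) * (s * r))) := by
    field_simp
  rw [h2, h3, h6]
  apply div_le_div_of_nonneg_left (by norm_num) (by positivity)
  have h4 : s * r ≤ r * r := mul_le_mul_of_nonneg_right hsr hr0.le
  have h5 : (r + s) * (s * r) ≤ (2 * r) * (r * r) :=
    mul_le_mul (by linarith) h4 (by positivity) (by positivity)
  nlinarith

theorem aj_pos (j : ℕ) : 0 < aj j := lt_of_lt_of_le (by positivity) (aj_lower j)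

theorem sj_eq (J : ℕ) : sj J = 1 / 8 * (1 - 1 / √((J : ℝ) + 1)) := by
  unfold sj
  induction J with
  | zero => simp
  | succ J ih =>
    rw [Finset.sum_range_succ, ih]
    unfold aj
    have h1 : ((J + 1 : ℕ) : ℝ) + 1 = (J : ℝ) + 2 := by push_cast; ring
    rw [h1]
    ring

theorem sj_le (J : ℕ) : sj J ≤ 1 / 8 := by
  rw [sj_eq]
  have h1 : 0 ≤ 1 / √((J : ℝ) + 1) := by positivity
  linarith

theorem summable_aj : Summable aj :=
  summable_of_sum_range_le (fun j => (aj_pos j).le) sj_le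

/-! ## The averages -/

/-- The iterated averages. -/
noncomputable def gg (g : ℝ → ℝ) : ℕ → ℝ → ℝ
  | 0 => g
  | J + 1 => fun u => 1 / (2 * aj J) * ∫ s in (-aj J)..(aj J), gg g J (u + s)

/-- The products. -/
noncomputable def pj (J : ℕ) (y : ℝ) : ℝ := ∏ j ∈ Finset.range J, Real.sinc (aj j * y)

theorem pj_cont (J : ℕ) : Continuous (pj J) := by
  unfold pj
  apply continuous_finsetProd
  intro j _
  exact Real.continuous_sinc.comp (by fun_prop)

theorem pj_abs (J : ℕ) (y : ℝ) : |pj J y| ≤ 1 := by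
  unfold pj
  rw [Finset.abs_prod]
  exact Finset.prod_le_one (fun j _ => abs_nonneg _) (fun j _ => Real.abs_sinc_le_one _)

theorem pj_succ (J : ℕ) (y : ℝ) : pj (J + 1) y = pj J y * Real.sinc (aj J * y) := by
  unfold pj
  rw [Finset.prod_range_succ]

theorem gg_cont {g : ℝ → ℝ} (hg : Continuous g) (J : ℕ) : Continuous (gg g J) := by
  induction J with
  | zero => exact hg
  | succ J ih =>
    apply continuous_const.mul
    apply intervalIntegral.continuous_parametric_intervalIntegral_of_continuous' (f := fun u s => gg g J (u + s))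
    exact ih.comp (by fun_prop)

theorem gg_const {g : ℝ → ℝ} (J : ℕ) (c u : ℝ) (h : ∀ s ∈ Set.Icc (-aj J) (aj J), gg g J (u + s) = c) :
    gg g (J + 1) u = c := by
  have hp := aj_pos J
  change 1 / (2 * aj J) * ∫ s in (-aj J)..(aj J), gg g J (u + s) = c
  have h1 : ∫ s in (-aj J)..(aj J), gg g J (u + s) = ∫ s in (-aj J)..(aj J), c := by
    apply intervalIntegral.integral_congr
    intro s hs
    rw [Set.uIcc_of_le (by linarith)] at hs
    exact h s hs
  rw [h1, intervalIntegral.integral_const, smul_eq_mul]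
  field_simp
  ring

theorem gg_props {g : ℝ → ℝ} (hg : Continuous g) (h01 : ∀ u, 0 ≤ g u ∧ g u ≤ 1)
    (h1 : ∀ u, |u| ≤ 1 / 2 → g u = 1) (h0 : ∀ u, 3 / 4 ≤ |u| → g u = 0) (J : ℕ) :
    (∀ u, 0 ≤ gg g J u ∧ gg g J u ≤ 1) ∧ (∀ u, |u| ≤ 1 / 2 - sj J → gg g J u = 1) ∧
      (∀ u, 3 / 4 + sj J ≤ |u| → gg g J u = 0) := by
  induction J with
  | zero =>
    have e : sj 0 = 0 := by simp [sj]
    rw [e, sub_zero, add_zero]
    exact ⟨h01, h1, h0⟩
  | succ J ih =>
    obtain ⟨i1, i2, i3⟩ := ih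
    have hp := aj_pos J
    have e : sj (J + 1) = sj J + aj J := by
      unfold sj
      rw [Finset.sum_range_succ]
    refine ⟨fun u => ?_, fun u hu => ?_, fun u hu => ?_⟩
    · have hc : Continuous fun s => gg g J (u + s) := (gg_cont hg J).comp (by fun_prop)
      change 0 ≤ 1 / (2 * aj J) * (∫ s in (-aj J)..(aj J), gg g J (u + s)) ∧
        1 / (2 * aj J) * (∫ s in (-aj J)..(aj J), gg g J (u + s)) ≤ 1
      constructor
      · apply mul_nonneg (by positivity)
        apply intervalIntegral.integral_nonneg (by linarith)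
        intro s _
        exact (i1 _).1
      · have h2 : ∫ s in (-aj J)..(aj J), gg g J (u + s) ≤ ∫ s in (-aj J)..(aj J), (1 : ℝ) := by
          apply intervalIntegral.integral_mono_on (by linarith) (hc.intervalIntegrable _ _)
            (by simp)
          intro s _
          exact (i1 _).2
        rw [intervalIntegral.integral_const, smul_eq_mul, mul_one] at h2
        calc 1 / (2 * aj J) * (∫ s in (-aj J)..(aj J), gg g J (u + s)) ≤
              1 / (2 * aj J) * (aj J - -aj J) := mul_le_mul_of_nonneg_left h2 (by positivity)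
          _ = 1 := by
            field_simp
            ring
    · apply gg_const
      intro s hs
      apply i2
      rw [e] at hu
      have h2 : |s| ≤ aj J := abs_le.2 hs
      have h3 := abs_add_le u s
      linarith
    · apply gg_const
      intro s hs
      apply i3
      rw [e] at hu
      have h2 : |s| ≤ aj J := abs_le.2 hs
      have h3 := abs_sub_abs_le_abs_sub u (-s)
      rw [abs_neg, sub_neg_eq_add] at h3
      linarith

theorem gg_rep {g Q : ℝ → ℝ} (hQ : Continuous Q) (hQi : Integrable Q)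
    (h : ∀ u, (g u : ℂ) = ∫ y : ℝ, ((Q y : ℝ) : ℂ) * cexp (I * (u * y : ℝ))) (J : ℕ) :
    ∀ u, (gg g J u : ℂ) = ∫ y : ℝ, ((Q y * pj J y : ℝ) : ℂ) * cexp (I * (u * y : ℝ)) := by
  induction J with
  | zero =>
    intro u
    have e : ∀ y, pj 0 y = 1 := fun y => by simp [pj]
    simp only [e, mul_one]
    exact h u
  | succ J ih =>
    intro u
    simp only [pj_succ]
    exact step hQ hQi (pj_cont J) (pj_abs J) ih (aj J) (aj_pos J) u

/-! ## The limit -/

theorem sinc_sub_one (a y : ℝ) (ha : 0 < a) : |Real.sinc (a * y) - 1| ≤ a * |y| := by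
  have h1 := sinc_int a y
  have h2 : (2 * a : ℝ) * (Real.sinc (a * y) - 1) = (∫ s in (-a)..a, (cexp (I * (s * y : ℝ)) - 1)).re := by
    rw [intervalIntegral.integral_sub, h1]
    · simp
      ring
    · apply Continuous.intervalIntegrable
      fun_prop
    · simp
  have h3 : ‖∫ s in (-a)..a, (cexp (I * (s * y : ℝ)) - 1)‖ ≤ a * |y| * |a - -a| := by
    apply intervalIntegral.norm_integral_le_of_norm_le_const
    intro s hs
    rw [Set.uIoc_of_le (by linarith)] at hs
    have h4 : ‖cexp (I * (s * y : ℝ)) - 1‖ ≤ ‖s * y‖ := Real.norm_exp_I_mul_ofReal_sub_one_le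
    refine h4.trans ?_
    rw [Real.norm_eq_abs, abs_mul]
    exact mul_le_mul_of_nonneg_right (abs_le.2 ⟨hs.1.le, hs.2⟩) (abs_nonneg _)
  have h5 : |a - -a| = 2 * a := by
    rw [abs_of_pos (by linarith)]
    ring
  rw [h5] at h3
  have h6 : |(2 * a : ℝ) * (Real.sinc (a * y) - 1)| ≤ a * |y| * (2 * a) := by
    rw [h2]
    exact (Complex.abs_re_le_norm _).trans h3
  rw [abs_mul, abs_of_pos (by linarith : 0 < 2 * a)] at h6
  have h7 : 0 < 2 * a := by linarith
  nlinarith

theorem pj_step (J : ℕ) (y : ℝ) : dist (pj J y) (pj (J + 1) y) ≤ aj J * |y| := by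
  rw [dist_comm, Real.dist_eq, pj_succ]
  have h1 : pj J y * Real.sinc (aj J * y) - pj J y = pj J y * (Real.sinc (aj J * y) - 1) := by ring
  rw [h1, abs_mul]
  calc |pj J y| * |Real.sinc (aj J * y) - 1| ≤ 1 * (aj J * |y|) :=
        mul_le_mul (pj_abs J y) (sinc_sub_one _ _ (aj_pos J)) (abs_nonneg _) zero_le_one
    _ = aj J * |y| := one_mul _

theorem exists_lim (y : ℝ) : ∃ l, Tendsto (fun J => pj J y) atTop (𝓝 l) :=
  cauchySeq_tendsto_of_complete
    (cauchySeq_of_dist_le_of_summable (fun J => aj J * |y|) (fun J => pj_step J y)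
      (summable_aj.mul_right _))

/-- The infinite product. -/
noncomputable def pl (y : ℝ) : ℝ := (exists_lim y).choose

theorem pl_lim (y : ℝ) : Tendsto (fun J => pj J y) atTop (𝓝 (pl y)) := (exists_lim y).choose_spec

theorem pl_dist (J : ℕ) (y : ℝ) : dist (pj J y) (pl y) ≤ (∑' m, aj (m + J)) * |y| := by
  have h1 := dist_le_tsum_of_dist_le_of_tendsto (fun J => aj J * |y|) (fun J => pj_step J y)
    (summable_aj.mul_right _) (pl_lim y) J
  rw [tsum_mul_right] at h1
  simpa only [add_comm J] using h1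

theorem pl_cont : Continuous pl := by
  have h1 : TendstoLocallyUniformly pj pl atTop := by
    rw [Metric.tendstoLocallyUniformly_iff]
    intro ε hε x
    refine ⟨Metric.ball x 1, Metric.ball_mem_nhds x one_pos, ?_⟩
    have h2 := (tendsto_sum_nat_add aj).mul_const (|x| + 1)
    rw [zero_mul] at h2
    filter_upwards [h2.eventually_lt_const hε] with J hJ
    intro y hy
    rw [dist_comm]
    refine (pl_dist J y).trans_lt (lt_of_le_of_lt ?_ hJ)
    apply mul_le_mul_of_nonneg_left _ (tsum_nonneg fun m => (aj_pos _).le)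
    rw [Metric.mem_ball, Real.dist_eq] at hy
    have h3 := abs_sub_abs_le_abs_sub y x
    linarith
  exact h1.continuous (Frequently.of_forall pj_cont)

theorem pj_anti (y : ℝ) : Antitone fun J => |pj J y| := by
  apply antitone_nat_of_succ_le
  intro J
  rw [pj_succ, abs_mul]
  exact mul_le_of_le_one_right (abs_nonneg _) (Real.abs_sinc_le_one _)

theorem pl_le (J : ℕ) (y : ℝ) : |pl y| ≤ |pj J y| :=
  le_of_tendsto (pl_lim y).abs (eventually_atTop.2 ⟨J, fun _ h => pj_anti y h⟩)

theorem pl_abs (y : ℝ) : |pl y| ≤ 1 := (pl_le 0 y).trans (pj_abs 0 y)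

theorem sinc_small {x : ℝ} (hx : 3 ≤ |x|) : |Real.sinc x| ≤ Real.exp (-1) := by
  have hx0 : x ≠ 0 := by
    rintro rfl
    rw [abs_zero] at hx
    linarith
  rw [Real.sinc_of_ne_zero hx0, abs_div]
  have h1 : |Real.sin x| ≤ 1 := Real.abs_sin_le_one x
  have h2 : Real.exp 1 < 3 := Real.exp_one_lt_three
  rw [Real.exp_neg, ← one_div]
  exact div_le_div₀ zero_le_one h1 (Real.exp_pos _) (by linarith)

theorem pj_small (J : ℕ) (y : ℝ) (h : ∀ j < J, 3 ≤ aj j * |y|) : |pj J y| ≤ Real.exp (-(J : ℝ)) := by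
  unfold pj
  rw [Finset.abs_prod]
  have h1 : Real.exp (-(J : ℝ)) = ∏ j ∈ Finset.range J, Real.exp (-1) := by
    rw [Finset.prod_const, Finset.card_range, ← Real.exp_nat_mul]
    congr 1
    ring
  rw [h1]
  apply Finset.prod_le_prod (fun j _ => abs_nonneg _)
  intro j hj
  apply sinc_small
  rw [abs_mul, abs_of_pos (aj_pos j)]
  exact h j (Finset.mem_range.1 hj)

theorem pl_small (y : ℝ) : |pl y| ≤ Real.exp 2 * Real.exp (-((1 / 48) ^ (2 / 3 : ℝ) * |y| ^ (2 / 3 : ℝ))) := by
  set X : ℝ := (|y| / 48) ^ (2 / 3 : ℝ) with hX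
  have hX0 : 0 ≤ X := by positivity
  have e1 : (1 / 48 : ℝ) ^ (2 / 3 : ℝ) * |y| ^ (2 / 3 : ℝ) = X := by
    rw [hX, ← Real.mul_rpow (by norm_num) (abs_nonneg y)]
    congr 1
    ring
  rw [e1, ← Real.exp_add]
  set J : ℕ := ⌊X⌋₊ - 1 with hJ
  have hJX : X - 2 ≤ J := by
    have h1 := Nat.lt_floor_add_one X
    have h2 : ((⌊X⌋₊ : ℕ) : ℝ) ≤ (J : ℝ) + 1 := by
      have : ⌊X⌋₊ ≤ J + 1 := by omega
      exact_mod_cast this
    linarith
  refine (pl_le J y).trans ((pj_small J y ?_).trans (Real.exp_le_exp.2 (by linarith)))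
  intro j hj
  have h1 : ((j : ℝ) + 2) ≤ X := by
    have h2 : j + 2 ≤ ⌊X⌋₊ := by omega
    have h3 : ((j + 2 : ℕ) : ℝ) ≤ ⌊X⌋₊ := by exact_mod_cast h2
    have h4 := Nat.floor_le hX0
    push_cast at h3
    linarith
  have hj0 : (0 : ℝ) ≤ j := Nat.cast_nonneg j
  set r := √((j : ℝ) + 2) with hr
  have hr0 : 0 < r := Real.sqrt_pos.2 (by linarith)
  have hr2 : r ^ 2 = j + 2 := Real.sq_sqrt (by linarith)
  have h5 : r ^ 3 ≤ |y| / 48 := by
    have h6 : r ^ 3 = (r ^ 2) ^ (3 / 2 : ℝ) := by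
      rw [← Real.rpow_natCast r 2, ← Real.rpow_mul hr0.le, ← Real.rpow_natCast r 3]
      norm_num
    have h7 : X ^ (3 / 2 : ℝ) = |y| / 48 := by
      rw [hX, ← Real.rpow_mul (by positivity)]
      norm_num
    rw [h6, ← h7, hr2]
    exact Real.rpow_le_rpow (by linarith) h1 (by norm_num)
  have h8 := aj_lower j
  rw [← hr] at h8
  calc (3 : ℝ) = 1 / (16 * r ^ 3) * (48 * r ^ 3) := by
        field_simp
        norm_num
    _ ≤ aj j * |y| := mul_le_mul h8 (by linarith) (by positivity) (aj_pos j).le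

/-- JOB GEV. -/
theorem gev : S_GEV := by
  obtain ⟨g, Q, hg, h01, h1, h0, hQ, hQi, ⟨K, hK⟩, hrep⟩ := base
  set L : ℝ → ℂ := fun u => ∫ y : ℝ, ((Q y * pl y : ℝ) : ℂ) * cexp (I * (u * y : ℝ)) with hL
  have hlim : ∀ u, Tendsto (fun J => (gg g J u : ℂ)) atTop (𝓝 (L u)) := by
    intro u
    simp only [gg_rep hQ hQi hrep]
    apply tendsto_integral_of_dominated_convergence (fun y => |Q y|)
    · intro J
      apply Continuous.aestronglyMeasurable
      have := pj_cont J
      fun_prop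
    · exact hQi.abs
    · intro J
      refine Eventually.of_forall fun y => ?_
      rw [norm_mul, norm_exp, mul_one, Complex.norm_real, Real.norm_eq_abs, abs_mul]
      exact mul_le_of_le_one_right (abs_nonneg _) (pj_abs J y)
    · refine Eventually.of_forall fun y => ?_
      apply Tendsto.mul_const
      exact (Complex.continuous_ofReal.tendsto _).comp ((pl_lim y).const_mul _)
  have hre : ∀ u, Tendsto (fun J => gg g J u) atTop (𝓝 (L u).re) := by
    intro u
    have h2 := (Complex.continuous_re.tendsto _).comp (hlim u)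
    simpa [Function.comp_def] using h2
  have hLr : ∀ u, ((L u).re : ℂ) = L u := by
    intro u
    exact tendsto_nhds_unique ((Complex.continuous_ofReal.tendsto _).comp (hre u)) (hlim u)
  have hp := gg_props hg h01 h1 h0
  refine ⟨fun u => (L u).re, fun y => Q y * pl y, (1 / 48) ^ (2 / 3 : ℝ), K * Real.exp 2, ?_⟩
  refine ⟨by positivity, fun u hu => ?_, fun u hu => ?_, fun u => ?_, hQ.mul pl_cont, fun y => ?_,
    fun u => hLr u⟩
  · refine tendsto_nhds_unique (hre u) ?_
    have h2 : (fun J => gg g J u) = fun _ => (1 : ℝ) := by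
      funext J
      exact (hp J).2.1 u (by have := sj_le J; linarith)
    rw [h2]
    exact tendsto_const_nhds
  · refine tendsto_nhds_unique (hre u) ?_
    have h2 : (fun J => gg g J u) = fun _ => (0 : ℝ) := by
      funext J
      exact (hp J).2.2 u (by have := sj_le J; linarith)
    rw [h2]
    exact tendsto_const_nhds
  · exact ⟨ge_of_tendsto (hre u) (Eventually.of_forall fun J => ((hp J).1 u).1),
      le_of_tendsto (hre u) (Eventually.of_forall fun J => ((hp J).1 u).2)⟩
  · have hK0 : 0 ≤ K := (abs_nonneg _).trans (hK 0)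
    rw [abs_mul, mul_assoc]
    exact mul_le_mul (hK y) (pl_small y) (abs_nonneg _) hK0

end Pool.Agent.Q210.UM
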