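import Mathlib
import Pool.Agent.Q97.UM.Stm
import Pool.Agent.H262R4.TM.All2

/-!
# Project UM, job TS: the twisted second moment on long intervals
-/

set_option autoImplicit false

namespace Pool.Agent.Q210.UM

open Filter Topology MeasureTheory Complex Pool.Agent.Q97.UM
open Pool.Agent.H306R2.SM (om cl Yf)
open Pool.Agent.H262R4.TM (Ck Rng f_TSM2)
open Pool.Agent.H262R4.TM.TTW (om_nonneg om_cont om_poly zeta_cont z2_bound)

/-! ## The weight -/

theorem fact_le (k : ℕ) (hk : 1 ≤ k) :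
    (k.factorial : ℝ) ≤ Real.exp 1 * √k * ((k : ℝ) / Real.exp 1) ^ k := by
  obtain ⟨m, rfl⟩ : ∃ m, k = m + 1 := ⟨k - 1, by omega⟩
  have h1 := Stirling.stirlingSeq'_antitone (Nat.zero_le m)
  have h2 : Stirling.stirlingSeq (m + 1) ≤ Real.exp 1 / √2 := by
    rw [← Stirling.stirlingSeq_one]
    exact h1
  unfold Stirling.stirlingSeq at h2
  have hk0 : (0 : ℝ) < ((m + 1 : ℕ) : ℝ) := by positivity
  have hp : (0 : ℝ) < √(2 * ((m + 1 : ℕ) : ℝ)) * (((m + 1 : ℕ) : ℝ) / Real.exp 1) ^ (m + 1) := by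
    positivity
  rw [div_le_iff₀ hp] at h2
  refine h2.trans (le_of_eq ?_)
  rw [Real.sqrt_mul (by norm_num)]
  have h3 : (√2 : ℝ) ≠ 0 := by positivity
  field_simp

theorem log_low {x : ℝ} (hx : |x| ≤ 1 / 2) : x - 2 * x ^ 2 ≤ Real.log (1 + x) := by
  rw [abs_le] at hx
  have h1 : 0 < 1 + x := by linarith [hx.1]
  refine le_trans ?_ (Real.one_sub_inv_le_log_of_pos h1)
  have h2 : 1 - (1 + x)⁻¹ = x / (1 + x) := by
    field_simp
    ring
  rw [h2, le_div_iff₀ h1]
  nlinarith [hx.1, hx.2, sq_nonneg x]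

theorem om_low {k : ℕ} {T t L : ℝ} (hk : 1 ≤ k) (hT : 0 < T) (hL : 1 ≤ L) (hk1 : L ^ 2 ≤ k)
    (hk2 : (k : ℝ) ≤ 4 * L ^ 2) (ht : |t - T| ≤ T / (4 * L)) :
    L * Real.exp (-2) / T ≤ om k (k / T) t := by
  have hL0 : 0 < L := by linarith
  have hk0 : (0 : ℝ) < k := by exact_mod_cast hk
  set x : ℝ := t / T - 1 with hx
  have hx1 : |x| ≤ 1 / (4 * L) := by
    have h1 : x = (t - T) / T := by
      rw [hx]
      field_simp
    rw [h1, abs_div, abs_of_pos hT, div_le_iff₀ hT]
    have h2 : 1 / (4 * L) * T = T / (4 * L) := by ring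
    rw [h2]
    exact ht
  have hx2 : 1 / (4 * L) ≤ 1 / 4 := by
    apply one_div_le_one_div_of_le (by norm_num)
    linarith
  have hx3 : |x| ≤ 1 / 2 := by linarith
  have hx4 : x ^ 2 ≤ 1 / (16 * L ^ 2) := by
    have h1 : x ^ 2 = |x| ^ 2 := (sq_abs x).symm
    have h2 : (1 / (4 * L)) ^ 2 = 1 / (16 * L ^ 2) := by
      field_simp
      norm_num
    rw [h1, ← h2]
    exact pow_le_pow_left₀ (abs_nonneg _) hx1 2
  have htT : t = T * (1 + x) := by
    rw [hx]
    field_simp
    ring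
  have h1x : 0 < 1 + x := by
    rw [abs_le] at hx3
    linarith [hx3.1]
  -- the formula
  have hform : om k (k / T) t = (k : ℝ) / T * (((k : ℝ) / Real.exp 1) ^ k / (k.factorial : ℝ)) *
      Real.exp (k * (Real.log (1 + x) - x)) := by
    unfold om
    have h2 : Real.exp (k * (Real.log (1 + x) - x)) = (1 + x) ^ k * Real.exp (-(k * x)) := by
      rw [mul_sub, Real.exp_sub, Real.exp_neg, ← div_eq_mul_inv]
      congr 1
      rw [← Real.log_pow, Real.exp_log (pow_pos h1x k)]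
    have h3 : Real.exp (-(k / T * t)) = (Real.exp 1)⁻¹ ^ k * Real.exp (-(k * x)) := by
      rw [← Real.exp_neg, ← Real.exp_nat_mul, ← Real.exp_add]
      congr 1
      rw [htT]
      field_simp
      ring
    have h4 : ((k : ℝ) / T) ^ (k + 1) * t ^ k = (k : ℝ) / T * (k ^ k * (1 + x) ^ k) := by
      rw [htT, mul_pow, pow_succ, div_pow]
      field_simp
    rw [h2, h3, h4, div_pow, inv_pow]
    field_simp
  have hfac := fact_le k hk
  have hpk : (0 : ℝ) < ((k : ℝ) / Real.exp 1) ^ k := by positivity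
  have hsk : 0 < √(k : ℝ) := Real.sqrt_pos.2 hk0
  have h5 : 1 / (Real.exp 1 * √k) ≤ ((k : ℝ) / Real.exp 1) ^ k / (k.factorial : ℝ) := by
    rw [div_le_div_iff₀ (by positivity) (by positivity), one_mul]
    calc (k.factorial : ℝ) ≤ Real.exp 1 * √k * ((k : ℝ) / Real.exp 1) ^ k := hfac
      _ = ((k : ℝ) / Real.exp 1) ^ k * (Real.exp 1 * √k) := by ring
  have h6 : Real.exp (-1) ≤ Real.exp (k * (Real.log (1 + x) - x)) := by
    apply Real.exp_le_exp.2
    have h7 := log_low hx3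
    have h8 : -(2 * x ^ 2) ≤ Real.log (1 + x) - x := by linarith
    have h9 : (k : ℝ) * (2 * x ^ 2) ≤ 4 * L ^ 2 * (2 * (1 / (16 * L ^ 2))) :=
      mul_le_mul hk2 (by linarith) (by positivity) (by positivity)
    have h10 : 4 * L ^ 2 * (2 * (1 / (16 * L ^ 2))) = 1 / 2 := by
      field_simp
      norm_num
    have h11 := mul_le_mul_of_nonneg_left h8 hk0.le
    linarith
  have h7 : L ≤ √(k : ℝ) := Real.le_sqrt_of_sq_le hk1
  rw [hform]
  have h8 : Real.exp (-2) = 1 / Real.exp 1 * Real.exp (-1) := by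
    rw [one_div, ← Real.exp_neg, ← Real.exp_add]
    norm_num
  have h9 : √(k : ℝ) * √(k : ℝ) = k := Real.mul_self_sqrt hk0.le
  calc L * Real.exp (-2) / T ≤ √k * Real.exp (-2) / T := by
        apply div_le_div_of_nonneg_right _ hT.le
        exact mul_le_mul_of_nonneg_right h7 (Real.exp_pos _).le
    _ = (k : ℝ) / T * (1 / (Real.exp 1 * √k)) * Real.exp (-1) := by
        rw [h8]
        nth_rewrite 2 [← h9]
        field_simp
    _ ≤ _ := by
        apply mul_le_mul _ h6 (Real.exp_pos _).le (by positivity)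
        exact mul_le_mul_of_nonneg_left h5 (by positivity)

/-! ## The mean values -/

/-- The Dirichlet polynomial. -/
noncomputable def Ad (M : ℕ) (a : ℕ → ℂ) (t : ℝ) : ℂ :=
  ∑ n ∈ Finset.Icc 1 M, a n * (n : ℂ) ^ (-(cl t))

/-- The integrand. -/
noncomputable def fd (M : ℕ) (a : ℕ → ℂ) (t : ℝ) : ℝ := ‖riemannZeta (cl t)‖ ^ 2 * ‖Ad M a t‖ ^ 2

theorem fd_nonneg (M : ℕ) (a : ℕ → ℂ) (t : ℝ) : 0 ≤ fd M a t := by
  unfold fd
  positivity

theorem cl_cont' : Continuous cl := by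
  unfold cl
  fun_prop

theorem Ad_cont (M : ℕ) (a : ℕ → ℂ) : Continuous (Ad M a) := by
  unfold Ad
  apply continuous_finsetSum
  intro n hn
  rw [Finset.mem_Icc] at hn
  apply continuous_const.mul
  apply Continuous.const_cpow cl_cont'.neg
  left
  exact_mod_cast (by omega : n ≠ 0)

theorem fd_cont (M : ℕ) (a : ℕ → ℂ) : Continuous (fd M a) :=
  (zeta_cont.norm.pow 2).mul ((Ad_cont M a).norm.pow 2)

theorem Ad_bound (M : ℕ) (a : ℕ → ℂ) (ha : ∀ n, ‖a n‖ ≤ 1) (t : ℝ) : ‖Ad M a t‖ ≤ M := by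
  unfold Ad
  refine (norm_sum_le _ _).trans ?_
  have h1 : ∀ n ∈ Finset.Icc 1 M, ‖a n * (n : ℂ) ^ (-(cl t))‖ ≤ 1 := by
    intro n hn
    rw [Finset.mem_Icc] at hn
    have hn0 : 0 < n := by omega
    rw [norm_mul, Complex.norm_natCast_cpow_of_pos hn0]
    have h2 : (-(cl t)).re = -(1 / 2) := by
      unfold cl
      simp
    rw [h2]
    have h3 : (n : ℝ) ^ (-(1 / 2) : ℝ) ≤ 1 :=
      Real.rpow_le_one_of_one_le_of_nonpos (by exact_mod_cast hn.1) (by norm_num)
    calc ‖a n‖ * (n : ℝ) ^ (-(1 / 2) : ℝ) ≤ 1 * 1 :=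
          mul_le_mul (ha n) h3 (by positivity) zero_le_one
      _ = 1 := one_mul 1
  refine (Finset.sum_le_card_nsmul _ _ 1 h1).trans ?_
  rw [Nat.card_Icc, Nat.add_sub_cancel, nsmul_eq_mul, mul_one]

theorem int_om_fd (M : ℕ) (a : ℕ → ℂ) (ha : ∀ n, ‖a n‖ ≤ 1) (k : ℕ) {δ : ℝ} (hδ : 0 < δ) :
    IntegrableOn (fun t => om k δ t * fd M a t) (Set.Ioi 0) := by
  refine Integrable.mono' ((om_poly k 4 hδ).const_mul (576 * (M : ℝ) ^ 2)) ?_ ?_
  · exact ((om_cont k δ).mul (fd_cont M a)).aestronglyMeasurable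
  · refine (ae_restrict_iff' measurableSet_Ioi).mpr (Eventually.of_forall fun t ht => ?_)
    have ht0 : (0 : ℝ) ≤ t := le_of_lt ht
    have h1 := om_nonneg k hδ ht0
    rw [Real.norm_of_nonneg (mul_nonneg h1 (fd_nonneg M a t))]
    have h2 : fd M a t ≤ 576 * (1 + t) ^ 4 * (M : ℝ) ^ 2 := by
      unfold fd
      exact mul_le_mul (z2_bound ht0) (pow_le_pow_left₀ (norm_nonneg _) (Ad_bound M a ha t) 2)
        (by positivity) (by positivity)
    calc om k δ t * fd M a t ≤ om k δ t * (576 * (1 + t) ^ 4 * (M : ℝ) ^ 2) :=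
          mul_le_mul_of_nonneg_left h2 h1
      _ = 576 * (M : ℝ) ^ 2 * (om k δ t * (1 + t) ^ 4) := by ring

/-- The upper bound for the smooth moment. -/
theorem moment (hQ : S_QL) : ∃ (η C : ℝ), 0 < η ∧ 1 ≤ C ∧ ∀ᶠ T : ℝ in atTop, ∀ k : ℕ, Rng T k →
    ∀ M : ℕ, (M : ℝ) ≤ T ^ (1 / 4 : ℝ) → ∀ a : ℕ → ℂ, (∀ n, ‖a n‖ ≤ 1) →
    ∫ t in Set.Ioi (0 : ℝ), om k (k / T) t * fd M a t ≤
      C * Real.log T * (QF M a).re + T ^ (-η) := by
  obtain ⟨η, hη, hT⟩ := f_TSM2 (1 / 4) (by norm_num)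
  obtain ⟨C, hC1, hC⟩ := hQ
  refine ⟨η, 3 + 2 * C, hη, by linarith, ?_⟩
  have ev1 : ∀ᶠ T : ℝ in atTop, Real.log (4 * Real.log T ^ 2) + 2 ≤ Real.log T := by
    have h1 : Tendsto (fun T : ℝ => Real.log T) atTop atTop := Real.tendsto_log_atTop
    have h2 : ∀ᶠ x : ℝ in atTop, Real.log (4 * x ^ 2) + 2 ≤ x := by
      have h3 := (Real.isLittleO_log_id_atTop).bound (show (0 : ℝ) < 1 / 4 by norm_num)
      filter_upwards [h3, eventually_ge_atTop (8 : ℝ)] with x hx hx8
      have hx0 : 0 < x := by linarith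
      rw [Real.norm_of_nonneg (Real.log_nonneg (by linarith)), id, Real.norm_of_nonneg hx0.le] at hx
      rw [Real.log_mul (by norm_num) (by positivity), Real.log_pow]
      have h4 : Real.log 4 ≤ 2 := by
        have h5 : (4 : ℝ) = 2 ^ 2 := by norm_num
        rw [h5, Real.log_pow]
        have := Real.log_two_lt_d9
        push_cast
        linarith
      push_cast
      linarith
    exact h1.eventually h2
  filter_upwards [hT, ev1, eventually_ge_atTop (Real.exp 2)] with T hT1 hT2 hTe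
  intro k hk M hM a ha
  have hT0 : 0 < T := (Real.exp_pos 2).trans_le hTe
  have hL2 : 2 ≤ Real.log T := by
    rw [Real.le_log_iff_exp_le hT0]
    exact hTe
  have hT1' : 1 ≤ T := le_trans (Real.one_le_exp (by norm_num)) hTe
  have hk1 : (1 : ℝ) ≤ k := by
    have := hk.1
    nlinarith
  rcases Nat.eq_zero_or_pos M with rfl | hM0
  · have h1 : ∀ t, om k (k / T) t * fd 0 a t = 0 := by
      intro t
      unfold fd Ad
      simp
    simp only [h1, integral_zero]
    have h2 : QF 0 a = 0 := by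
      unfold QF
      simp
    rw [h2, Complex.zero_re, mul_zero, zero_add]
    positivity
  have hmain := hT1 k hk M hM a ha
  obtain ⟨q1, q2, q3⟩ := hC M a hM0
  set Λ : ℝ := Real.log (Yf k T) + Ck k with hΛ
  set F : ℂ := ∑ h ∈ Finset.Icc 1 M, ∑ k ∈ Finset.Icc 1 M, a h * (starRingEnd ℂ) (a k) *
    ((1 / (Nat.lcm h k : ℝ) * Real.log ((Nat.gcd h k : ℝ) ^ 2 / ((h : ℝ) * k)) : ℝ) : ℂ) with hF
  have hY : 0 < Yf k T := by
    unfold Yf
    positivity
  have hsplit : ∑ h ∈ Finset.Icc 1 M, ∑ l ∈ Finset.Icc 1 M, a h * (starRingEnd ℂ) (a l) *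
        ((1 / (Nat.lcm h l : ℝ) *
          (Real.log (Yf k T * (Nat.gcd h l : ℝ) ^ 2 / ((h : ℝ) * l)) + Ck k) : ℝ) : ℂ) =
      (Λ : ℂ) * QF M a + F := by
    unfold QF
    rw [hF, Finset.mul_sum, ← Finset.sum_add_distrib]
    apply Finset.sum_congr rfl
    intro h hh
    rw [Finset.mul_sum, ← Finset.sum_add_distrib]
    apply Finset.sum_congr rfl
    intro l hl
    rw [Finset.mem_Icc] at hh hl
    have hh0 : (0 : ℝ) < h := by exact_mod_cast hh.1
    have hl0 : (0 : ℝ) < l := by exact_mod_cast hl.1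
    have hg0 : (0 : ℝ) < (Nat.gcd h l : ℝ) := by
      exact_mod_cast Nat.gcd_pos_of_pos_left l hh.1
    have h1 : Real.log (Yf k T * (Nat.gcd h l : ℝ) ^ 2 / ((h : ℝ) * l)) =
        Real.log (Yf k T) + Real.log ((Nat.gcd h l : ℝ) ^ 2 / ((h : ℝ) * l)) := by
      rw [mul_div_assoc, Real.log_mul hY.ne' (by positivity)]
    rw [h1, hΛ]
    push_cast
    ring
  rw [hsplit] at hmain
  have hint : ∫ t in Set.Ioi (0 : ℝ), om k (k / T) t * fd M a t =
      ∫ t in Set.Ioi (0 : ℝ), om k (k / T) t * ‖riemannZeta (cl t)‖ ^ 2 *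
        ‖∑ n ∈ Finset.Icc 1 M, a n * (n : ℂ) ^ (-(cl t))‖ ^ 2 := by
    congr 1
    funext t
    unfold fd Ad
    ring
  rw [hint]
  set J : ℝ := ∫ t in Set.Ioi (0 : ℝ), om k (k / T) t * ‖riemannZeta (cl t)‖ ^ 2 *
        ‖∑ n ∈ Finset.Icc 1 M, a n * (n : ℂ) ^ (-(cl t))‖ ^ 2 with hJ
  have hre : J - (Λ * (QF M a).re + F.re) ≤ T ^ (-η) := by
    refine le_trans ?_ hmain
    refine le_trans (le_of_eq ?_) (Complex.re_le_norm _)
    simp
  have hFre : F.re ≤ C * (1 + Real.log M) * (QF M a).re := (Complex.re_le_norm F).trans q3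
  have hlogM : Real.log M ≤ Real.log T := by
    have hM0r : (0 : ℝ) < M := by exact_mod_cast hM0
    apply Real.log_le_log hM0r
    refine hM.trans ?_
    calc T ^ (1 / 4 : ℝ) ≤ T ^ (1 : ℝ) := Real.rpow_le_rpow_of_exponent_le hT1' (by norm_num)
      _ = T := Real.rpow_one T
  have hΛ3 : Λ ≤ 3 * Real.log T := by
    have h1 : Real.log (Yf k T) ≤ Real.log T := by
      apply Real.log_le_log hY
      unfold Yf
      apply div_le_self hT0.le
      have := Real.pi_gt_three
      nlinarith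
    have h2 : ((harmonic k : ℚ) : ℝ) ≤ 1 + Real.log k := harmonic_le_one_add_log k
    have h3 : Real.log k ≤ Real.log (4 * Real.log T ^ 2) :=
      Real.log_le_log (by linarith) hk.2
    have h4 : Real.eulerMascheroniConstant < 1 := by
      have := Real.eulerMascheroniConstant_lt_two_thirds
      linarith
    rw [hΛ]
    unfold Ck
    linarith
  have h5 : Λ * (QF M a).re ≤ 3 * Real.log T * (QF M a).re := mul_le_mul_of_nonneg_right hΛ3 q1
  have h6 : C * (1 + Real.log M) * (QF M a).re ≤ 2 * C * Real.log T * (QF M a).re := by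
    apply mul_le_mul_of_nonneg_right _ q1
    nlinarith
  have h7 : (3 + 2 * C) * Real.log T * (QF M a).re =
      3 * Real.log T * (QF M a).re + 2 * C * Real.log T * (QF M a).re := by ring
  linarith

/-- One short interval. -/
theorem short (M : ℕ) (a : ℕ → ℂ) (ha : ∀ n, ‖a n‖ ≤ 1) {T L w : ℝ} {k : ℕ} (hT : 0 < T)
    (hL : 1 ≤ L) (hk1 : L ^ 2 ≤ k) (hk2 : (k : ℝ) ≤ 4 * L ^ 2) (hw : 0 ≤ w) (hw1 : w ≤ T / (4 * L))
    (hwT : w ≤ T / 2) :
    ∫ t in (T - w)..(T + w), fd M a t ≤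
      T * Real.exp 2 / L * ∫ t in Set.Ioi (0 : ℝ), om k (k / T) t * fd M a t := by
  have hL0 : 0 < L := by linarith
  have hk : 1 ≤ k := by
    have : (1 : ℝ) ≤ k := by nlinarith
    exact_mod_cast this
  have hk0 : (0 : ℝ) < k := by exact_mod_cast hk
  have hδ : 0 < (k : ℝ) / T := by positivity
  have hint := int_om_fd M a ha k hδ
  have hsub : Set.Ioc (T - w) (T + w) ⊆ Set.Ioi 0 := by
    intro t ht
    have h1 := ht.1
    change 0 < t
    linarith
  have h1 : ∫ t in Set.Ioc (T - w) (T + w), om k (k / T) t * fd M a t ≤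
      ∫ t in Set.Ioi (0 : ℝ), om k (k / T) t * fd M a t := by
    apply setIntegral_mono_set hint
    · refine (ae_restrict_iff' measurableSet_Ioi).mpr (Eventually.of_forall fun t ht => ?_)
      exact mul_nonneg (om_nonneg k hδ (le_of_lt ht)) (fd_nonneg M a t)
    · exact hsub.eventuallyLE
  have h2 : ∫ t in Set.Ioc (T - w) (T + w), L * Real.exp (-2) / T * fd M a t ≤
      ∫ t in Set.Ioc (T - w) (T + w), om k (k / T) t * fd M a t := by
    apply setIntegral_mono_on _ (hint.mono_set hsub) measurableSet_Ioc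
    · intro t ht
      apply mul_le_mul_of_nonneg_right _ (fd_nonneg M a t)
      apply om_low hk hT hL hk1 hk2
      refine le_trans ?_ hw1
      rw [abs_le]
      constructor <;> linarith [ht.1, ht.2]
    · exact ((fd_cont M a).integrableOn_Ioc).const_mul _
  rw [integral_const_mul] at h2
  rw [intervalIntegral.integral_of_le (by linarith)]
  have h3 := h2.trans h1
  have h4 : (0 : ℝ) < T * Real.exp 2 / L := by positivity
  have h5 : T * Real.exp 2 / L * (L * Real.exp (-2) / T) = 1 := by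
    rw [Real.exp_neg]
    field_simp
  calc ∫ t in Set.Ioc (T - w) (T + w), fd M a t =
        T * Real.exp 2 / L * (L * Real.exp (-2) / T * ∫ t in Set.Ioc (T - w) (T + w), fd M a t) := by
        rw [← mul_assoc, h5, one_mul]
    _ ≤ _ := mul_le_mul_of_nonneg_left h3 h4.le

/-- The long interval, coefficients of modulus at most one. -/
theorem long (hQ : S_QL) : ∃ (θ C : ℝ), 0 < θ ∧ θ ≤ 1 / 4 ∧ 1 ≤ C ∧ ∀ᶠ T : ℝ in atTop, ∀ M : ℕ,
    (M : ℝ) ≤ T ^ θ → ∀ (a : ℕ → ℂ), (∀ n, ‖a n‖ ≤ 1) → 0 ≤ (QF M a).re →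
    ∫ t in (T / 2)..(3 * T), fd M a t ≤ C * T * (Real.log T * (QF M a).re + T ^ (-θ)) := by
  obtain ⟨η, C, hη, hC, hev⟩ := moment hQ
  obtain ⟨T₁, hT₁⟩ := eventually_atTop.1 hev
  refine ⟨min (1 / 8) (η / 2), 336 * Real.exp 2 * C, by positivity,
    (min_le_left _ _).trans (by norm_num), ?_, ?_⟩
  · have h1 : (1 : ℝ) ≤ Real.exp 2 := Real.one_le_exp (by norm_num)
    nlinarith
  set θ := min (1 / 8) (η / 2) with hθ
  have hθ1 : θ ≤ 1 / 8 := min_le_left _ _
  have hθ2 : θ ≤ η / 2 := min_le_right _ _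
  filter_upwards [eventually_ge_atTop (2 * T₁), eventually_ge_atTop (Real.exp 4),
    eventually_ge_atTop (4 : ℝ)] with T hTT hTe hT4
  intro M hM a ha hQ0
  have hT0 : 0 < T := by linarith
  set L := Real.log T with hL
  have hL4 : 4 ≤ L := by
    rw [hL, Real.le_log_iff_exp_le hT0]
    exact hTe
  set w : ℝ := T / (16 * L) with hw
  have hw0 : 0 < w := by positivity
  set n : ℕ := ⌈20 * L⌉₊ with hn
  have hn1 : 20 * L ≤ n := Nat.le_ceil _
  have hn2 : (n : ℝ) ≤ 21 * L := by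
    have := Nat.ceil_lt_add_one (show 0 ≤ 20 * L by positivity)
    linarith
  set g : ℕ → ℝ := fun i => T / 2 + 2 * i * w with hg
  have hsqrt : T ^ (1 / 2 : ℝ) ≤ T / 2 := by
    have h1 : T ^ (1 / 2 : ℝ) * T ^ (1 / 2 : ℝ) = T := by
      rw [← Real.rpow_add hT0]
      norm_num
    have h2 : (2 : ℝ) ≤ T ^ (1 / 2 : ℝ) := by
      have h3 : (4 : ℝ) ^ (1 / 2 : ℝ) ≤ T ^ (1 / 2 : ℝ) :=
        Real.rpow_le_rpow (by norm_num) hT4 (by norm_num)
      have h4 : (4 : ℝ) ^ (1 / 2 : ℝ) = 2 := by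
        rw [show (4 : ℝ) = 2 ^ (2 : ℝ) by norm_num, ← Real.rpow_mul (by norm_num)]
        norm_num
      rwa [h4] at h3
    nlinarith
  -- one interval
  have hone : ∀ i < n, ∫ t in (g i)..(g (i + 1)), fd M a t ≤
      8 * Real.exp 2 * T / L * (2 * C * L * (QF M a).re + T ^ (-θ)) := by
    intro i hi
    set T' : ℝ := T / 2 + (2 * i + 1) * w with hT'
    have hi0 : (0 : ℝ) ≤ i := Nat.cast_nonneg i
    have hi1 : (i : ℝ) + 1 ≤ n := by exact_mod_cast hi
    have e1 : g i = T' - w := by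
      rw [hg, hT']
      ring
    have e2 : g (i + 1) = T' + w := by
      rw [hg, hT']
      push_cast
      ring
    have hlow : T / 2 ≤ T' := by
      rw [hT']
      have : 0 ≤ (2 * (i : ℝ) + 1) * w := by positivity
      linarith
    have hnw : (n : ℝ) * w ≤ 21 / 16 * T := by
      calc (n : ℝ) * w ≤ 21 * L * w := mul_le_mul_of_nonneg_right hn2 hw0.le
        _ = 21 / 16 * T := by
          rw [hw]
          field_simp
    have hup : T' ≤ 4 * T := by
      rw [hT']
      have : (2 * (i : ℝ) + 1) * w ≤ 2 * (n * w) := by nlinarith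
      linarith
    have hT'0 : 0 < T' := by linarith
    set L' := Real.log T' with hL'
    have hL'1 : L / 2 ≤ L' := by
      have h1 : T ^ (1 / 2 : ℝ) ≤ T' := hsqrt.trans hlow
      have h2 := Real.log_le_log (by positivity) h1
      rw [Real.log_rpow hT0] at h2
      linarith
    have hL'2 : L' ≤ 2 * L := by
      have h1 : T' ≤ T ^ 2 := by nlinarith
      have h2 := Real.log_le_log hT'0 h1
      rw [Real.log_pow] at h2
      push_cast at h2
      linarith
    have hL'3 : 2 ≤ L' := by linarith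
    set k : ℕ := ⌈L' ^ 2⌉₊ with hk
    have hk1 : L' ^ 2 ≤ k := Nat.le_ceil _
    have hk2 : (k : ℝ) ≤ 4 * L' ^ 2 := by
      have := Nat.ceil_lt_add_one (show 0 ≤ L' ^ 2 by positivity)
      nlinarith
    have hww : w ≤ T' / (4 * L') := by
      rw [hw, div_le_div_iff₀ (by positivity) (by positivity)]
      nlinarith
    have hwT : w ≤ T' / 2 := by
      refine hww.trans ?_
      apply div_le_div_of_nonneg_left hT'0.le (by norm_num)
      linarith
    have h1 := short M a ha hT'0 (by linarith : 1 ≤ L') hk1 hk2 hw0.le hww hwT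
    rw [e1, e2]
    have hMT : (M : ℝ) ≤ T' ^ (1 / 4 : ℝ) := by
      refine hM.trans ?_
      calc T ^ θ ≤ T ^ (1 / 8 : ℝ) := Real.rpow_le_rpow_of_exponent_le (by linarith) hθ1
        _ = (T ^ (1 / 2 : ℝ)) ^ (1 / 4 : ℝ) := by
          rw [← Real.rpow_mul hT0.le]
          norm_num
        _ ≤ T' ^ (1 / 4 : ℝ) := Real.rpow_le_rpow (by positivity) (hsqrt.trans hlow) (by norm_num)
    have h2 := hT₁ T' (by linarith) k ⟨hk1, hk2⟩ M hMT a ha
    have h3 : T' ^ (-η) ≤ T ^ (-θ) := by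
      calc T' ^ (-η) ≤ (T ^ (1 / 2 : ℝ)) ^ (-η) :=
            Real.rpow_le_rpow_of_nonpos (by positivity) (hsqrt.trans hlow) (by linarith)
        _ = T ^ (-(η / 2)) := by
          rw [← Real.rpow_mul hT0.le]
          congr 1
          ring
        _ ≤ T ^ (-θ) := Real.rpow_le_rpow_of_exponent_le (by linarith) (by linarith)
    have h4 : C * L' * (QF M a).re ≤ 2 * C * L * (QF M a).re := by
      apply mul_le_mul_of_nonneg_right _ hQ0
      nlinarith
    have h5 : T' * Real.exp 2 / L' ≤ 8 * Real.exp 2 * T / L := by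
      rw [div_le_div_iff₀ (by linarith) (by linarith)]
      have h6 : T' * L ≤ (4 * T) * (2 * L') := mul_le_mul hup (by linarith) (by linarith) (by linarith)
      have h7 := mul_le_mul_of_nonneg_left h6 (Real.exp_pos 2).le
      nlinarith
    have h8 : 0 ≤ 2 * C * L * (QF M a).re + T ^ (-θ) := by positivity
    calc ∫ t in (T' - w)..(T' + w), fd M a t ≤
          T' * Real.exp 2 / L' * ∫ t in Set.Ioi (0 : ℝ), om k (k / T') t * fd M a t := h1
      _ ≤ T' * Real.exp 2 / L' * (2 * C * L * (QF M a).re + T ^ (-θ)) := by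
          apply mul_le_mul_of_nonneg_left _ (by positivity)
          linarith
      _ ≤ _ := mul_le_mul_of_nonneg_right h5 h8
  have hsum := intervalIntegral.sum_integral_adjacent_intervals (f := fd M a) (μ := volume) (a := g)
    (n := n) (fun i _ => (fd_cont M a).intervalIntegrable _ _)
  have hg0 : g 0 = T / 2 := by
    rw [hg]
    simp
  have hgn : 3 * T ≤ g n := by
    have h1 : 5 / 4 * T ≤ n * w := by
      calc 5 / 4 * T = 20 * L * w := by
            rw [hw]
            field_simp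
            norm_num
        _ ≤ n * w := mul_le_mul_of_nonneg_right hn1 hw0.le
    have h2 : g n = T / 2 + 2 * (n * w) := by
      rw [hg]
      ring
    rw [h2]
    linarith
  have hle : ∫ t in (T / 2)..(3 * T), fd M a t ≤ ∫ t in (g 0)..(g n), fd M a t := by
    rw [hg0]
    apply intervalIntegral.integral_mono_interval le_rfl (by linarith) hgn
    · exact Eventually.of_forall fun t => fd_nonneg M a t
    · exact (fd_cont M a).intervalIntegrable _ _
  rw [← hsum] at hle
  have hall := Finset.sum_le_card_nsmul (Finset.range n) _ _ fun i hi => hone i (Finset.mem_range.1 hi)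
  rw [Finset.card_range, nsmul_eq_mul] at hall
  have hP : 0 ≤ 2 * C * L * (QF M a).re + T ^ (-θ) := by positivity
  calc ∫ t in (T / 2)..(3 * T), fd M a t ≤
        n * (8 * Real.exp 2 * T / L * (2 * C * L * (QF M a).re + T ^ (-θ))) := hle.trans hall
    _ ≤ (21 * L) * (8 * Real.exp 2 * T / L * (2 * C * L * (QF M a).re + T ^ (-θ))) :=
        mul_le_mul_of_nonneg_right hn2 (by positivity)
    _ = 168 * Real.exp 2 * T * (2 * C * L * (QF M a).re + T ^ (-θ)) := by
        field_simp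
        ring
    _ ≤ 168 * Real.exp 2 * T * (2 * C * (L * (QF M a).re + T ^ (-θ))) := by
        apply mul_le_mul_of_nonneg_left _ (by positivity)
        have h9 : 0 < T ^ (-θ) := by positivity
        nlinarith
    _ = 336 * Real.exp 2 * C * T * (L * (QF M a).re + T ^ (-θ)) := by ring

theorem QF_smul (M : ℕ) (a : ℕ → ℂ) (lam : ℝ) :
    QF M (fun n => (lam : ℂ) * a n) = ((lam ^ 2 : ℝ) : ℂ) * QF M a := by
  unfold QF
  rw [Finset.mul_sum]
  apply Finset.sum_congr rfl
  intro h _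
  rw [Finset.mul_sum]
  apply Finset.sum_congr rfl
  intro k _
  rw [map_mul, Complex.conj_ofReal]
  push_cast
  ring

theorem fd_smul (M : ℕ) (a : ℕ → ℂ) (lam : ℝ) (t : ℝ) :
    fd M (fun n => (lam : ℂ) * a n) t = lam ^ 2 * fd M a t := by
  unfold fd
  have h1 : Ad M (fun n => (lam : ℂ) * a n) t = lam * Ad M a t := by
    unfold Ad
    rw [Finset.mul_sum]
    apply Finset.sum_congr rfl
    intro n _
    ring
  rw [h1, norm_mul, Complex.norm_real, mul_pow, Real.norm_eq_abs, sq_abs]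
  ring

/-- JOB TS. -/
theorem ts (hQ : S_QL) : S_TS := by
  obtain ⟨θ, C, hθ0, hθ1, hC, hev⟩ := long hQ
  obtain ⟨C', hC', hq⟩ := hQ
  refine ⟨θ, C, hθ0, hθ1, hC, ?_⟩
  filter_upwards [hev, eventually_ge_atTop (1 : ℝ)] with T hT hT1
  intro M hM c lam hc
  have hT0 : 0 < T := by linarith
  have hlam : 0 ≤ lam := (norm_nonneg _).trans (hc 0)
  have hpos : ∀ a : ℕ → ℂ, 0 ≤ (QF M a).re := by
    intro a
    rcases Nat.eq_zero_or_pos M with rfl | hM0
    · unfold QF
      simp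
    · exact (hq M a hM0).1
  change ∫ t in (T / 2)..(3 * T), fd M c t ≤ _
  rcases hlam.eq_or_lt with h0 | h0
  · have hc0 : ∀ n, c n = 0 := by
      intro n
      have h1 := hc n
      rw [← h0] at h1
      exact norm_le_zero_iff.1 h1
    have h1 : ∀ t, fd M c t = 0 := by
      intro t
      unfold fd Ad
      simp [hc0]
    simp only [h1, intervalIntegral.integral_zero]
    have h2 : 0 ≤ Real.log T := Real.log_nonneg hT1
    have h3 := hpos c
    positivity
  · have hcl : c = fun n => (lam : ℂ) * (c n / lam) := by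
      funext n
      have : (lam : ℂ) ≠ 0 := by exact_mod_cast h0.ne'
      field_simp
    have ha : ∀ n, ‖c n / (lam : ℂ)‖ ≤ 1 := by
      intro n
      rw [norm_div, Complex.norm_real, Real.norm_of_nonneg hlam, div_le_one h0]
      exact hc n
    have h1 := hT M hM (fun n => c n / lam) ha (hpos _)
    rw [hcl, QF_smul]
    simp only [fd_smul]
    rw [intervalIntegral.integral_const_mul]
    have h2 : (((lam ^ 2 : ℝ) : ℂ) * QF M fun n => c n / lam).re =
        lam ^ 2 * (QF M fun n => c n / lam).re := by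
      rw [Complex.re_ofReal_mul]
    rw [h2]
    calc lam ^ 2 * ∫ t in (T / 2)..(3 * T), fd M (fun n => c n / lam) t ≤
          lam ^ 2 * (C * T * (Real.log T * (QF M fun n => c n / lam).re + T ^ (-θ))) :=
          mul_le_mul_of_nonneg_left h1 (by positivity)
      _ = _ := by ring

end Pool.Agent.Q210.UM
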